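import Pool.Agent.H886.FG.Dep
import Pool.Graph.R_seed8.Y791.BC.Good

/-!
# The variable is algebraic over the functions which do not depend on it
-/

set_option autoImplicit false
set_option linter.unusedSectionVars false

open Polynomial IsDedekindDomain NumberField

namespace Pool.Agent.H886.FG

open Pool.Agent.TH954 Pool.Agent.Y791.BS Pool.Agent.Y791.BF Pool.Agent.Y791.BC

variable {K : Type} [Field K] [CharZero K] [Algebra.EssFiniteType ℚ K] {M : Type} [Field M]
  [Algebra (RatFunc K) M] [Algebra K M] [IsScalarTower K (RatFunc K) M]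

lemma aevalK_eq_sum {ι : Type} [Fintype ι] (g : ι → M) (p : MvPolynomial ι K)
    (s : Finset (ι →₀ ℕ)) (hs : p.support ⊆ s) : MvPolynomial.aeval g p =
    ∑ m ∈ s, algebraMap (RatFunc K) M (algebraMap K (RatFunc K) (p.coeff m)) * ∏ a, g a ^ m a := by
  rw [MvPolynomial.aeval_eq_eval₂Hom, MvPolynomial.coe_eval₂Hom, MvPolynomial.eval₂_eq',
    Finset.sum_subset hs]
  · refine Finset.sum_congr rfl fun m _ => ?_
    rw [← IsScalarTower.algebraMap_apply]
  · intro m _ hm
    rw [MvPolynomial.notMem_support_iff.1 hm, map_zero, zero_mul]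

/-- **Relations.** If the variable satisfies an equation over the ring generated by elements whose
values do not depend on the variable, then the coefficients vanish at all local places. -/
theorem rel_zero (pl : ∀ i : PlF (RatFunc K), Plc (RatFunc K) M (AlgebraicClosure i.Lv))
    {ι : Type} [Fintype ι] {g : ι → M} {Z : ι → ∀ i : PlF (RatFunc K), i.Lv}
    (hZ : ∀ a, Cdat (Z a))
    (hval : ∀ a i, (pl i).val (g a) (algebraMap i.Lv (AlgebraicClosure i.Lv) (Z a i)))
    (n : ℕ) (P : ℕ → MvPolynomial ι K)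
    (hP : ∑ j ∈ Finset.range n, MvPolynomial.aeval g (P j) *
      algebraMap (RatFunc K) M RatFunc.X ^ j = 0) (j : ℕ) (hj : j < n)
    (i : PlF (RatFunc K)) : (pl i).val (MvPolynomial.aeval g (P j)) 0 := by
  classical
  set G : MvPolynomial ι K[X] := ∑ j ∈ Finset.range n,
    (P j).map (C : K →+* K[X]) * MvPolynomial.C (X ^ j) with hG
  have hcoeff : ∀ m j, j < n → (G.coeff m).coeff j = (P j).coeff m := by
    intro m j hj
    rw [hG, MvPolynomial.coeff_sum, finsetSum_coeff, Finset.sum_eq_single j]
    · rw [mul_comm, MvPolynomial.coeff_C_mul, MvPolynomial.coeff_map, mul_comm, coeff_C_mul,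
        coeff_X_pow, if_pos rfl, mul_one]
    · intro b _ hb
      rw [mul_comm, MvPolynomial.coeff_C_mul, MvPolynomial.coeff_map, mul_comm, coeff_C_mul,
        coeff_X_pow, if_neg (Ne.symm hb), mul_zero]
    · intro h
      exact absurd (Finset.mem_range.2 hj) h
  have hG0 : MvPolynomial.aeval g (G.map (algebraMap K[X] (RatFunc K))) = 0 := by
    rw [← hP, hG, map_sum, map_sum]
    refine Finset.sum_congr rfl fun j _ => ?_
    rw [map_mul, map_mul, MvPolynomial.map_map, MvPolynomial.map_C, MvPolynomial.aeval_C, map_pow,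
      RatFunc.algebraMap_X, map_pow]
    congr 1
    rw [MvPolynomial.aeval_def, MvPolynomial.eval₂_map, MvPolynomial.aeval_def]
    congr 1
    ext c
    rw [RingHom.comp_apply, RingHom.comp_apply, RatFunc.algebraMap_C,
      IsScalarTower.algebraMap_apply K (RatFunc K) M]
    rfl
  have h1 := exists_zero pl hZ hval G hG0 j i
  have hsup : (P j).support ⊆ G.support := by
    intro m hm
    rw [MvPolynomial.mem_support_iff] at hm ⊢
    intro h0
    apply hm
    rw [← hcoeff m j hj, h0, coeff_zero]
  have e : MvPolynomial.aeval g (P j) = ∑ m ∈ G.support, algebraMap (RatFunc K) M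
      (algebraMap K (RatFunc K) ((G.coeff m).coeff j)) * ∏ a, g a ^ m a := by
    rw [aevalK_eq_sum g (P j) _ hsup]
    exact Finset.sum_congr rfl fun m _ => by rw [hcoeff m j hj]
  rwa [e]

/-- **The variable is algebraic.** -/
theorem good_of_algebraic [CharZero M] [IsAlgClosed M] (hObs : S_ObsFG) (A : SAct (RatFunc K) M)
    (pl : ∀ i : PlF (RatFunc K), Plc (RatFunc K) M (AlgebraicClosure i.Lv))
    (hpl : ∀ i, GeoPlc A (pl i))
    (hdim : ∀ x : M, Transcendental (RatFunc K) x →
      ∀ t : M, IsAlgebraic (Algebra.adjoin (RatFunc K) {x}) t)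
    {ι : Type} [Fintype ι] {g : ι → M} {Z : ι → ∀ i : PlF (RatFunc K), i.Lv}
    (hZ : ∀ a, Cdat (Z a))
    (hval : ∀ a i, (pl i).val (g a) (algebraMap i.Lv (AlgebraicClosure i.Lv) (Z a i)))
    (halg : IsAlgebraic (Algebra.adjoin K (Set.range g))
      (algebraMap (RatFunc K) M RatFunc.X)) :
    ∃ W : ValuationSubring M, GoodW A W := by
  classical
  obtain ⟨p, hp0, hp⟩ := halg
  have hmem : ∀ j, ∃ q : MvPolynomial ι K, MvPolynomial.aeval g q = (p.coeff j : M) := by
    intro j
    have h1 : ∀ x : M, x ∈ Algebra.adjoin K (Set.range g) →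
        ∃ q : MvPolynomial ι K, MvPolynomial.aeval g q = x := by
      intro x hx
      rw [Algebra.adjoin_range_eq_range_aeval] at hx
      exact hx
    exact h1 _ (p.coeff j).2
  choose P hP using hmem
  obtain ⟨j, hj⟩ := Polynomial.support_nonempty.2 hp0
  rw [Polynomial.mem_support_iff] at hj
  have hjn : j < p.natDegree + 1 := Nat.lt_succ_of_le (le_natDegree_of_ne_zero hj)
  have hsum : ∑ j ∈ Finset.range (p.natDegree + 1), MvPolynomial.aeval g (P j) *
      algebraMap (RatFunc K) M RatFunc.X ^ j = 0 := by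
    rw [← hp, aeval_eq_sum_range]
    refine Finset.sum_congr rfl fun j _ => ?_
    rw [hP, Algebra.smul_def]
    rfl
  have htv : ∀ i, (pl i).val (MvPolynomial.aeval g (P j)) 0 :=
    fun i => rel_zero pl hZ hval _ P hsum j hjn i
  have ht0 : MvPolynomial.aeval g (P j) ≠ 0 := by
    rw [hP]
    intro h0
    exact hj (Subtype.ext h0)
  exact goodW_of_zero A (hObs (RatFunc K) (ess_ratFunc K)) pl hpl ht0 htv
    (fun x hx => hdim x hx _)

end Pool.Agent.H886.FG
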