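import Pool.Agent.H886.FG.Kum
import Pool.Agent.H886.FG.Alg

/-!
# Actions over the rational functions: elements with few contacts
-/

set_option autoImplicit false
set_option linter.unusedSectionVars false

open Polynomial IsDedekindDomain NumberField

namespace Pool.Agent.H886.FG

open Pool.Agent.TH954 Pool.Agent.Y791.BS Pool.Agent.Y791.BF Pool.Agent.Y791.BC

/-- another embedding with the same restriction to the constants -/
lemma exists_other {K : Type} [Field K] [CharZero K] [Algebra.EssFiniteType ℚ K]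
    (i : PlF (RatFunc K)) : ∃ φ' : RatFunc K →+* i.Lv, φ' ≠ i.φ ∧
      ∀ c : K, φ' (algebraMap K (RatFunc K) c) = i.φ (algebraMap K (RatFunc K) c) := by
  obtain ⟨ϖ, hϖ0, hϖ1, -⟩ := exists_unif i.v
  set i0 := cstPl i with hi0
  obtain ⟨τ, hτ, hd⟩ := exists_at_distance i0 (i.φ RatFunc.X)
    (r := algebraMap i.L i.Lv ϖ) ((_root_.map_ne_zero _).2 hϖ0)
  refine ⟨(embF hτ : RatFunc K →+* i0.Lv), fun h => ?_, fun c => tauPl_C i0 hτ c⟩
  have h1 : (embF hτ : RatFunc K →+* i0.Lv) (algebraMap K[X] (RatFunc K) X) = τ := by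
    rw [tauPl_pol i0 hτ X, Polynomial.map_X, eval_X]
  rw [RatFunc.algebraMap_X] at h1
  have h2 : i.φ RatFunc.X = τ := by
    rw [← h1, ← h]
    rfl
  have key : ∀ a b : i.v.adicCompletion i.L, b = a → ‖a - b‖ = ‖(algebraMap i.L i.Lv ϖ : i.Lv)‖ →
      False := by
    intro a b hab hd
    rw [hab, sub_self, norm_zero] at hd
    exact (_root_.map_ne_zero (algebraMap i.L i.Lv)).2 hϖ0 (norm_eq_zero.1 hd.symm)
  exact key τ _ h2 hd

/-- the embedding of the constants has an extension -/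
lemma exists_ext {K : Type} [Field K] [CharZero K] [Algebra.EssFiniteType ℚ K] (j : PlF K) :
    ∃ φ : RatFunc K →+* j.Lv, φ.comp (algebraMap K (RatFunc K)) = j.φ := by
  obtain ⟨y, hy, -⟩ := exists_transcendental' j one_pos
  refine ⟨(embF hy : RatFunc K →+* j.Lv), RingHom.ext fun c => ?_⟩
  exact tauPl_C j hy c

variable {K : Type} [Field K] [CharZero K] {M : Type} [Field M]
  [CharZero M] [IsAlgClosed M] [Algebra (RatFunc K) M]

/-- integers with the same residues -/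
lemma int_unique {e : ℕ → ℤ} {n n' : ℤ} (h : ∀ N : ℕ, 0 < N → (N : ℤ) ∣ e N - n)
    (h' : ∀ N : ℕ, 0 < N → (N : ℤ) ∣ e N - n') : n = n' := by
  set N : ℕ := (n - n').natAbs + 1 with hN
  have h1 := dvd_sub (h' N (Nat.succ_pos _)) (h N (Nat.succ_pos _))
  have e1 : (e N - n') - (e N - n) = n - n' := by ring
  rw [e1] at h1
  have h2 : |n - n'| < (N : ℤ) := by
    rw [hN, Int.abs_eq_natAbs]
    push_cast
    linarith
  have h3 := Int.eq_zero_of_abs_lt_dvd h1 h2
  linarith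

/-- **The values at all places.** -/
theorem exists_all [Algebra.EssFiniteType ℚ K] (hEmb : S_EmbFG) (A : SAct (RatFunc K) M)
    (hex : ∀ i : PlF (RatFunc K), ∃ pl : Plc (RatFunc K) M (AlgebraicClosure i.Lv), GeoPlc A pl)
    (T : Finset K[X]) (hirr : ∀ π ∈ T, Irreducible π)
    (hmon : ∀ π ∈ T, π.Monic) (y : M) (hy : y ∈ A.fix)
    (hk : ∀ N : ℕ, 0 < N → ∃ (c : K) (e : K[X] → ℤ) (w : M), c ≠ 0 ∧ w ∈ A.fix ∧
      y = algebraMap (RatFunc K) M (algebraMap K (RatFunc K) c * mon T e) * w ^ N)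
    (hval : ∀ (i : PlF (RatFunc K)) (P : Plc (RatFunc K) M (AlgebraicClosure i.Lv)),
      GeoPlc A P → ∃ c, c ≠ 0 ∧ P.val y c) :
    ∃ (n : K[X] → ℤ) (Z : ∀ i : PlF (RatFunc K), i.Lv), Cdat Z ∧
      ∀ (i : PlF (RatFunc K)) (P : Plc (RatFunc K) M (AlgebraicClosure i.Lv)), GeoPlc A P →
        P.val (y / algebraMap (RatFunc K) M (mon T n))
        (algebraMap i.Lv (AlgebraicClosure i.Lv) (Z i)) := by
  classical
  choose c e w hc hw he using hk
  -- for a family of places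
  have key : ∀ pl : (∀ i : PlF (RatFunc K), Plc (RatFunc K) M (AlgebraicClosure i.Lv)),
      (∀ i, GeoPlc A (pl i)) → ∃ (n : K[X] → ℤ) (Z : ∀ i : PlF (RatFunc K), i.Lv), Cdat Z ∧
      (∀ i, (pl i).val (y / algebraMap (RatFunc K) M (mon T n))
        (algebraMap i.Lv (AlgebraicClosure i.Lv) (Z i))) ∧
      ∀ π ∈ T, ∀ (N : ℕ) (hN : 0 < N), (N : ℤ) ∣ e N hN π - n π := by
    intro pl hpl
    obtain ⟨Y, hY0, hY⟩ := exists_values A pl hpl hy (fun i => hval i _ (hpl i))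
    have hkv : ∀ N (hN : 0 < N), ∀ i : PlF (RatFunc K), ∃ z : i.Lv,
        Y i = i.φ (algebraMap K (RatFunc K) (c N hN) * mon T (e N hN)) * z ^ N := fun N hN i =>
      values_kum A pl hpl hY (mul_ne_zero ((_root_.map_ne_zero _).2 (hc N hN))
        (mon_ne hirr (e N hN))) (hw N hN) hN (he N hN) i
    have hK : Kdat T Y :=
      ⟨hirr, hmon, hY0, fun N hN => ⟨c N hN, e N hN, hc N hN, hkv N hN⟩⟩
    obtain ⟨n, hn, hn'⟩ := hK.cdat hEmb
    have hcomm : ∀ (i : PlF (RatFunc K)) (r : RatFunc K),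
        algebraMap (RatFunc K) (AlgebraicClosure i.Lv) r =
        algebraMap i.Lv (AlgebraicClosure i.Lv) (i.φ r) :=
      fun i r => IsScalarTower.algebraMap_apply (RatFunc K) i.Lv _ r
    refine ⟨n, _, hn, fun i => ?_, fun π hπ N hN => hn' π hπ N hN _ _ (hc N hN) (hkv N hN)⟩
    have hm0 : algebraMap (RatFunc K) (AlgebraicClosure i.Lv) (mon T n) ≠ 0 :=
      (_root_.map_ne_zero _).2 (mon_ne hirr n)
    rw [map_div₀, ← hcomm, div_eq_mul_inv, div_eq_mul_inv]
    exact (hY i).mul ((Plc.val_alg (pl := pl i) (mon T n)).inv hm0)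
  choose pl hpl using hex
  obtain ⟨n, Z, hZ, hv, hn⟩ := key pl hpl
  refine ⟨n, Z, hZ, fun i P hP => ?_⟩
  obtain ⟨n', Z', hZ', hv', hn'⟩ := key (Function.update pl i P) (by
    intro i'
    by_cases h : i' = i
    · subst h
      rw [Function.update_self]
      exact hP
    · rw [Function.update_of_ne h]
      exact hpl i')
  have hnn : mon T n' = mon T n := by
    refine mon_congr fun π hπ => ?_
    refine int_unique (e := fun N => if h : 0 < N then e N h π else 0) ?_ ?_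
    · intro N hN
      simp only [dif_pos hN]
      exact hn' π hπ N hN
    · intro N hN
      simp only [dif_pos hN]
      exact hn π hπ N hN
  rw [hnn] at hv'
  obtain ⟨φ', hne, hφ'⟩ := exists_other i
  have hne' : (⟨i.L, i.v, φ'⟩ : PlF (RatFunc K)) ≠ i := by
    intro h
    obtain ⟨L, v, φ⟩ := i
    simp only [PlF.mk.injEq, heq_eq_eq, true_and] at h
    exact hne h
  have h1 : (Z' i : i.v.adicCompletion i.L) = Z' ⟨i.L, i.v, φ'⟩ :=
    hZ'.eq i.L i.v i.φ φ' (fun c => (hφ' c).symm)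
  have h2 : (Z i : i.v.adicCompletion i.L) = Z ⟨i.L, i.v, φ'⟩ :=
    hZ.eq i.L i.v i.φ φ' (fun c => (hφ' c).symm)
  have h3 := hv' ⟨i.L, i.v, φ'⟩
  rw [Function.update_of_ne hne'] at h3
  have h4 := (hv ⟨i.L, i.v, φ'⟩).unique h3
  have h5 : Z ⟨i.L, i.v, φ'⟩ = Z' ⟨i.L, i.v, φ'⟩ := (algebraMap _ _).injective h4
  have h6 := hv' i
  rw [Function.update_self] at h6
  have h7 : Z' i = Z i := h1.trans (h5.symm.trans h2.symm)
  rwa [h7] at h6

/-- the values at the compatible places are bounded and bounded away from zero near a root of the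
polynomial, at one place -/
def AvoidsA (A : SAct (RatFunc K) M) (y : M) (π : K[X]) : Prop :=
  ∃ (j : PlF K) (θ : j.Lv) (r C : ℝ), (π.map j.φ).eval θ = 0 ∧ 0 < r ∧
    ∀ φ : RatFunc K →+* j.Lv, (∀ c : K, φ (algebraMap K (RatFunc K) c) = j.φ c) →
      ‖φ RatFunc.X - θ‖ < r →
      ∀ P : Plc (RatFunc K) M (AlgebraicClosure (PlF.Lv ⟨j.L, j.v, φ⟩)), GeoPlc A P →
        ∀ x : PlF.Lv ⟨j.L, j.v, φ⟩, P.val y (algebraMap _ _ x) → C⁻¹ ≤ ‖x‖ ∧ ‖x‖ ≤ C

/-- **Elements with few contacts.** -/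
theorem act_main [Algebra.EssFiniteType ℚ K] (hEmb : S_EmbFG) (hObs : S_ObsFG) [Algebra K M]
    [IsScalarTower K (RatFunc K) M] (A : SAct (RatFunc K) M)
    (hex : ∀ i : PlF (RatFunc K), ∃ pl : Plc (RatFunc K) M (AlgebraicClosure i.Lv), GeoPlc A pl)
    (hdim : ∀ x : M, Transcendental (RatFunc K) x →
      ∀ t : M, IsAlgebraic (Algebra.adjoin (RatFunc K) {x}) t)
    {ι : Type} [Fintype ι] (y : ι → M) (hy0 : ∀ a, y a ≠ 0) (hy : ∀ a, y a ∈ A.fix)
    (hval : ∀ a (i : PlF (RatFunc K)) (P : Plc (RatFunc K) M (AlgebraicClosure i.Lv)),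
      GeoPlc A P → ∃ c, c ≠ 0 ∧ P.val (y a) c)
    (hfew : ∀ a, {π : K[X] | Irreducible π ∧ π.Monic ∧ ¬ AvoidsA A (y a) π}.Finite) :
    ∃ (c : ι → RatFunc K) (z : ι → ∀ j : PlF K, j.Lv), (∀ a, c a ≠ 0) ∧ (∀ a j, z a j ≠ 0) ∧
      (∀ a (i : PlF (RatFunc K)) (P : Plc (RatFunc K) M (AlgebraicClosure i.Lv)), GeoPlc A P →
        P.val (y a / algebraMap (RatFunc K) M (c a))
          (algebraMap i.Lv (AlgebraicClosure i.Lv) (z a (cstPl i)))) ∧
      (IsAlgebraic (Algebra.adjoin K (Set.range fun a => y a / algebraMap (RatFunc K) M (c a)))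
        (algebraMap (RatFunc K) M RatFunc.X) → ∃ W : ValuationSubring M, GoodW A W) := by
  classical
  have key : ∀ a, ∃ (c : RatFunc K) (Z : ∀ i : PlF (RatFunc K), i.Lv), c ≠ 0 ∧ Cdat Z ∧
      ∀ (i : PlF (RatFunc K)) (P : Plc (RatFunc K) M (AlgebraicClosure i.Lv)), GeoPlc A P →
        P.val (y a / algebraMap (RatFunc K) M c)
        (algebraMap i.Lv (AlgebraicClosure i.Lv) (Z i)) := by
    intro a
    choose pl hpl using hex
    obtain ⟨Y, hY0, hY⟩ := exists_values A pl hpl (hy a) (fun i => hval a i _ (hpl i))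
    set T := (hfew a).toFinset with hT
    have hirr : ∀ π ∈ T, Irreducible π := fun π hπ => ((hfew a).mem_toFinset.1 hπ).1
    have hmon : ∀ π ∈ T, π.Monic := fun π hπ => ((hfew a).mem_toFinset.1 hπ).2.1
    have hav : ∀ π : K[X], Irreducible π → π.Monic → π ∉ T → Avoids Y π := by
      intro π h1 h2 h3
      have h4 : AvoidsA A (y a) π := by
        by_contra h4
        exact h3 ((hfew a).mem_toFinset.2 ⟨h1, h2, h4⟩)
      obtain ⟨j, θ, r, C, hroot, hr, H⟩ := h4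
      refine ⟨j, θ, r, C, hroot, hr, fun τ hτ hlt => ?_⟩
      refine H (embF hτ : RatFunc K →+* j.Lv) (fun c => tauPl_C j hτ c) ?_ (pl (tauPl j hτ))
        (hpl (tauPl j hτ)) (Y (tauPl j hτ)) (hY (tauPl j hτ))
      have h1 : (embF hτ : RatFunc K →+* j.Lv) (algebraMap K[X] (RatFunc K) X) = τ := by
        rw [tauPl_pol j hτ X, Polynomial.map_X, eval_X]
      rw [RatFunc.algebraMap_X] at h1
      rw [h1]
      exact hlt
    obtain ⟨n, Z, hZ, hv⟩ := exists_all hEmb A (fun i => ⟨pl i, hpl i⟩) T hirr hmon (y a) (hy a)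
      (exists_kum A pl hpl (hy a) (hy0 a) hY0 hY T hirr hav) (hval a)
    exact ⟨mon T n, Z, mon_ne hirr n, hZ, hv⟩
  choose c Z hc hZ hv using key
  choose Φ hΦ using fun j : PlF K => exists_ext j
  have hzZ : ∀ a (i : PlF (RatFunc K)),
      (Z a ⟨(cstPl i).L, (cstPl i).v, Φ (cstPl i)⟩ : i.v.adicCompletion i.L) = Z a i := by
    intro a i
    refine (hZ a).eq i.L i.v (Φ (cstPl i)) i.φ fun c => ?_
    exact congrArg (fun f : K →+* (cstPl i).Lv => f c) (hΦ (cstPl i))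
  refine ⟨c, fun a j => Z a ⟨j.L, j.v, Φ j⟩, hc, fun a j => (hZ a).ne _, fun a i P hP => ?_,
    fun halg => ?_⟩
  · have h1 := hv a i P hP
    rwa [← hzZ a i] at h1
  · choose pl hpl using hex
    exact good_of_algebraic hObs A pl hpl hdim hZ (fun a i => hv a i _ (hpl i)) halg

end Pool.Agent.H886.FG
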