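import Pool.Agent.H886.FG.Exp
import Mathlib.RingTheory.Polynomial.UniqueFactorization

/-!
# Values which are bounded near a closed point of the line
-/

set_option autoImplicit false
set_option linter.unusedSectionVars false

open Polynomial IsDedekindDomain NumberField

namespace Pool.Agent.H886.FG

open Pool.Agent.TH954 Pool.Agent.Y791.BS Pool.Agent.Y791.BF

section mono

variable {K : Type} [Field K]

lemma mon_congr {T : Finset K[X]} {e e' : K[X] → ℤ} (h : ∀ π ∈ T, e π = e' π) :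
    mon T e = mon T e' := Finset.prod_congr rfl fun π hπ => by rw [h π hπ]

open scoped Classical in
/-- larger sets -/
lemma mon_extend {T T' : Finset K[X]} (hT : T ⊆ T') (e : K[X] → ℤ) :
    mon T e = mon T' (fun π => if π ∈ T then e π else 0) := by
  unfold mon
  rw [← Finset.prod_subset hT (fun π _ hπ => by simp only [if_neg hπ, zpow_zero])]
  exact Finset.prod_congr rfl fun π hπ => by simp only [if_pos hπ]

lemma mon_sub {T : Finset K[X]} (hirr : ∀ π ∈ T, Irreducible π) (e e' : K[X] → ℤ) :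
    mon T (fun π => e π - e' π) = mon T e / mon T e' := by
  unfold mon
  rw [← Finset.prod_div_distrib]
  refine Finset.prod_congr rfl fun π hπ => ?_
  exact zpow_sub₀ ((map_ne_zero_iff _ (RatFunc.algebraMap_injective K)).2 (hirr π hπ).ne_zero) _ _

lemma mon_mul_pow {T : Finset K[X]} (hirr : ∀ π ∈ T, Irreducible π) (e m : K[X] → ℤ) (N : ℕ) :
    mon T (fun π => e π + m π * N) = mon T e * mon T m ^ N := by
  unfold mon
  rw [← Finset.prod_pow, ← Finset.prod_mul_distrib]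
  refine Finset.prod_congr rfl fun π hπ => ?_
  have h4 : algebraMap K[X] (RatFunc K) π ≠ 0 :=
    (map_ne_zero_iff _ (RatFunc.algebraMap_injective K)).2 (hirr π hπ).ne_zero
  rw [zpow_add₀ h4, zpow_mul, zpow_natCast]

/-- factorisation of polynomials -/
lemma exists_mon_pol (p : K[X]) (hp : p ≠ 0) : ∃ (T : Finset K[X]) (c : K) (e : K[X] → ℤ),
    (∀ π ∈ T, Irreducible π) ∧ (∀ π ∈ T, π.Monic) ∧ c ≠ 0 ∧
      algebraMap K[X] (RatFunc K) p = algebraMap K (RatFunc K) c * mon T e := by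
  classical
  set s := UniqueFactorizationMonoid.normalizedFactors p with hs
  have h1 : C p.leadingCoeff * s.prod = p := Polynomial.leadingCoeff_mul_prod_normalizedFactors p
  refine ⟨s.toFinset, p.leadingCoeff, fun π => s.count π, fun π hπ => ?_, fun π hπ => ?_,
    leadingCoeff_ne_zero.2 hp, ?_⟩
  · exact UniqueFactorizationMonoid.irreducible_of_normalized_factor π (Multiset.mem_toFinset.1 hπ)
  · have h2 := UniqueFactorizationMonoid.normalize_normalized_factor π (Multiset.mem_toFinset.1 hπ)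
    rw [← h2]
    exact Polynomial.monic_normalize (UniqueFactorizationMonoid.irreducible_of_normalized_factor π
      (Multiset.mem_toFinset.1 hπ)).ne_zero
  · conv_lhs => rw [← h1]
    rw [map_mul, RatFunc.algebraMap_C]
    congr 1
    rw [Finset.prod_multiset_count, map_prod]
    unfold mon
    refine Finset.prod_congr rfl fun π _ => ?_
    rw [map_pow, zpow_natCast]

/-- factorisation of rational functions -/
lemma exists_mon (r : RatFunc K) (hr : r ≠ 0) : ∃ (T : Finset K[X]) (c : K) (e : K[X] → ℤ),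
    (∀ π ∈ T, Irreducible π) ∧ (∀ π ∈ T, π.Monic) ∧ c ≠ 0 ∧
      r = algebraMap K (RatFunc K) c * mon T e := by
  classical
  obtain ⟨T1, c1, e1, hi1, hm1, hc1, h1⟩ := exists_mon_pol r.num (RatFunc.num_ne_zero hr)
  obtain ⟨T2, c2, e2, hi2, hm2, hc2, h2⟩ := exists_mon_pol r.denom (RatFunc.denom_ne_zero r)
  have hi : ∀ π ∈ T1 ∪ T2, Irreducible π := fun π hπ => (Finset.mem_union.1 hπ).elim (hi1 π) (hi2 π)
  refine ⟨T1 ∪ T2, c1 / c2, fun π => (if π ∈ T1 then e1 π else 0) - (if π ∈ T2 then e2 π else 0),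
    hi, fun π hπ => (Finset.mem_union.1 hπ).elim (hm1 π) (hm2 π), div_ne_zero hc1 hc2, ?_⟩
  rw [mon_sub hi, ← mon_extend Finset.subset_union_left, ← mon_extend Finset.subset_union_right,
    map_div₀, div_mul_div_comm, ← h1, ← h2, RatFunc.num_div_denom]

end mono

variable {K : Type} [Field K] [CharZero K] {Y : ∀ i : PlF (RatFunc K), i.Lv}

/-- **Bounded values.** If the values of `Y` are bounded and bounded away from zero near one root of
the irreducible polynomial `π` then the Kummer classes of `Y` are unramified at `π`. -/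
theorem avoid_dvd [Algebra.EssFiniteType ℚ K] (hY : ∀ i, Y i ≠ 0) {π : K[X]}
    (i0 : PlF K) {θ : i0.Lv}
    (hroot : (π.map i0.φ).eval θ = 0) {r M : ℝ} (hr : 0 < r)
    (hM : ∀ (τ : i0.Lv) (hτ : Transcendental K τ), ‖τ - θ‖ < r →
      M⁻¹ ≤ ‖Y (tauPl i0 hτ)‖ ∧ ‖Y (tauPl i0 hτ)‖ ≤ M)
    (hkum : ∀ N : ℕ, 0 < N → ∃ (T : Finset K[X]) (c : K) (e : K[X] → ℤ),
      (∀ π ∈ T, Irreducible π) ∧ (∀ π ∈ T, π.Monic) ∧ c ≠ 0 ∧
      ∀ i : PlF (RatFunc K), ∃ z : i.Lv,
        Y i = i.φ (algebraMap K (RatFunc K) c * mon T e) * z ^ N)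
    {T : Finset K[X]} (hirr : ∀ π ∈ T, Irreducible π) (hmon : ∀ π ∈ T, π.Monic) (hπT : π ∈ T)
    {N : ℕ} (hN : 0 < N) {c : K} (hc : c ≠ 0) {e : K[X] → ℤ}
    (H : ∀ i : PlF (RatFunc K), ∃ z : i.Lv,
      Y i = i.φ (algebraMap K (RatFunc K) c * mon T e) * z ^ N) : (N : ℤ) ∣ e π := by
  classical
  obtain ⟨ϖ, hϖ0, hϖ1, hϖ⟩ := exists_unif i0.v
  set w : i0.Lv := algebraMap i0.L i0.Lv ϖ with hw
  have hw0 : w ≠ 0 := (_root_.map_ne_zero _).2 hϖ0
  have hwn : 0 < ‖w‖ := norm_pos_iff.2 hw0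
  choose τ hτ hd using fun j : ℕ => exists_at_distance i0 θ (pow_ne_zero j hw0)
  obtain ⟨j1, hj1⟩ := exists_pow_lt_of_lt_one hr hϖ1
  choose u hu using fun j : ℕ => hϖ _ (hY (tauPl i0 (hτ j)))
  -- the bound
  have hbd : ∀ j, j1 ≤ j → M⁻¹ ≤ ‖w‖ ^ u j ∧ ‖w‖ ^ u j ≤ M := by
    intro j hj
    rw [← hu j]
    refine hM _ (hτ j) ?_
    rw [hd j, norm_pow]
    exact (pow_le_pow_of_le_one hwn.le hϖ1.le hj).trans_lt hj1
  have hM0 : 0 < M := (zpow_pos hwn _).trans_le (hbd j1 le_rfl).2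
  obtain ⟨B, hB⟩ := exists_pow_lt_of_lt_one (inv_pos.2 hM0) hϖ1
  have hub : ∀ j, j1 ≤ j → |u j| ≤ B := by
    intro j hj
    obtain ⟨h1, h2⟩ := hbd j hj
    rw [abs_le]
    constructor
    · by_contra hlt
      push Not at hlt
      have h3 : ‖w‖ ^ (-(B : ℤ)) ≤ ‖w‖ ^ u j :=
        zpow_le_zpow_right_of_le_one₀ hwn hϖ1.le hlt.le
      rw [zpow_neg, zpow_natCast] at h3
      have h4 : M < (‖w‖ ^ B)⁻¹ := by
        rw [lt_inv_comm₀ hM0 (pow_pos hwn _)]
        exact hB
      exact absurd (h4.trans_le (h3.trans h2)) (lt_irrefl _)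
    · by_contra hlt
      push Not at hlt
      have h3 : ‖w‖ ^ u j ≤ ‖w‖ ^ (B : ℤ) := zpow_le_zpow_right_of_le_one₀ hwn hϖ1.le hlt.le
      rw [zpow_natCast] at h3
      exact absurd (hB.trans_le (h1.trans h3)) (lt_irrefl _)
  -- a higher level
  obtain ⟨T', c', e', hirr', hmon', hc', H'⟩ := hkum (N * (4 * B + 1)) (Nat.mul_pos hN (Nat.succ_pos _))
  obtain ⟨T2, hT2, hT2', hi2, hm2⟩ : ∃ T2 : Finset K[X], T ⊆ T2 ∧ T' ⊆ T2 ∧
      (∀ π ∈ T2, Irreducible π) ∧ ∀ π ∈ T2, π.Monic :=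
    ⟨T ∪ T', Finset.subset_union_left, Finset.subset_union_right,
      fun π hπ => (Finset.mem_union.1 hπ).elim (hirr π) (hirr' π),
      fun π hπ => (Finset.mem_union.1 hπ).elim (hmon π) (hmon' π)⟩
  obtain ⟨j0, hj0⟩ := near_root hi2 hm2 hY (hT2 hπT) i0 hroot hw0 hϖ1 hϖ
  set J := max j0 j1 with hJ
  rw [mon_extend hT2] at H
  rw [mon_extend hT2'] at H'
  have hdd : ∀ j, J ≤ j → ∀ N : ℕ, 0 < N → ∀ (c : K) (e : K[X] → ℤ), c ≠ 0 →
      (∀ i : PlF (RatFunc K), ∃ z : i.Lv,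
        Y i = i.φ (algebraMap K (RatFunc K) c * mon T2 e) * z ^ N) →
      (N : ℤ) ∣ e π - (u (j + 1) - u j) := by
    intro j hj
    refine hj0 j ((le_max_left _ _).trans hj) (τ j) (τ (j + 1)) (hτ j) (hτ (j + 1)) ?_ ?_ _ _
      (hu j) (hu (j + 1))
    · rw [hd j, norm_pow]
    · rw [hd (j + 1), norm_pow]
  have h1 := fun j hj => hdd j hj N hN c _ hc H
  have h2 := fun j hj => hdd j hj _ (Nat.mul_pos hN (Nat.succ_pos _)) c' _ hc' H'
  rw [if_pos hπT] at h1
  set E := (if π ∈ T' then e' π else 0) with hE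
  -- the differences are equal
  have hdiff : ∀ j, J ≤ j → u (j + 1) - u j = u (J + 1) - u J := by
    intro j hj
    have h3 := h2 j hj
    have h4 := h2 J le_rfl
    have h5 : ((N * (4 * B + 1) : ℕ) : ℤ) ∣ (u (j + 1) - u j) - (u (J + 1) - u J) := by
      have := dvd_sub h4 h3
      have e6 : (E - (u (J + 1) - u J)) - (E - (u (j + 1) - u j)) =
        (u (j + 1) - u j) - (u (J + 1) - u J) := by ring
      rwa [e6] at this
    have hJ1 : j1 ≤ J := le_max_right _ _
    have b1 := abs_le.1 (hub (j + 1) (by omega))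
    have b2 := abs_le.1 (hub j (by omega))
    have b3 := abs_le.1 (hub (J + 1) (by omega))
    have b4 := abs_le.1 (hub J hJ1)
    have h6 : |(u (j + 1) - u j) - (u (J + 1) - u J)| < ((N * (4 * B + 1) : ℕ) : ℤ) := by
      have h7 : (4 * B + 1 : ℤ) ≤ ((N * (4 * B + 1) : ℕ) : ℤ) := by
        push_cast
        have : (1 : ℤ) ≤ N := by exact_mod_cast hN
        nlinarith
      rw [abs_lt]
      constructor <;> linarith
    have h7 := Int.eq_zero_of_abs_lt_dvd h5 h6
    linarith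
  have hlin : ∀ r : ℕ, u (J + r) - u J = r * (u (J + 1) - u J) := by
    intro r
    induction r with
    | zero => simp
    | succ r ih =>
      have h3 := hdiff (J + r) (Nat.le_add_right _ _)
      rw [← add_assoc]
      push_cast
      linarith
  have hzero : u (J + 1) - u J = 0 := by
    have hJ1 : j1 ≤ J := le_max_right _ _
    have h3 := hlin (2 * B + 1)
    have b1 := abs_le.1 (hub (J + (2 * B + 1)) (by omega))
    have b2 := abs_le.1 (hub J hJ1)
    by_contra hne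
    have h4 : (2 * B + 1 : ℤ) ≤ |((2 * B + 1 : ℕ) : ℤ) * (u (J + 1) - u J)| := by
      rw [abs_mul]
      have h5 : 1 ≤ |u (J + 1) - u J| := Int.one_le_abs hne
      have h6 : |((2 * B + 1 : ℕ) : ℤ)| = 2 * B + 1 := by
        push_cast
        exact abs_of_nonneg (by positivity)
      rw [h6]
      nlinarith
    rw [← h3] at h4
    have h5 : |u (J + (2 * B + 1)) - u J| ≤ 2 * B := by
      rw [abs_le]
      constructor <;> linarith
    linarith
  have h3 := h1 J le_rfl
  rwa [hzero, sub_zero] at h3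

end Pool.Agent.H886.FG
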