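import Pool.Agent.H886.FG.Exp

/-!
# Relations between functions which do not depend on the variable
-/

set_option autoImplicit false
set_option linter.unusedSectionVars false

open Polynomial IsDedekindDomain NumberField

namespace Pool.Agent.H886.FG

open Pool.Agent.TH954 Pool.Agent.Y791.BS Pool.Agent.Y791.BF

lemma val_mvaeval {k M C : Type} [Field k] [Field M] [Field C] [Algebra k M] [Algebra k C]
    {pl : Plc k M C} {ι : Type} {g : ι → M} {c : ι → C} (h : ∀ a, pl.val (g a) (c a))
    (p : MvPolynomial ι k) : pl.val (MvPolynomial.aeval g p) (MvPolynomial.aeval c p) := by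
  induction p using MvPolynomial.induction_on with
  | C r =>
    rw [MvPolynomial.aeval_C, MvPolynomial.aeval_C]
    exact Plc.val_alg r
  | add p q hp hq =>
    rw [map_add, map_add]
    exact hp.add hq
  | mul_X p n hp =>
    rw [map_mul, map_mul, MvPolynomial.aeval_X, MvPolynomial.aeval_X]
    exact hp.mul (h n)

variable {K : Type} [Field K] [CharZero K]

/-- the embedding of the constants -/
noncomputable def cstPl (i : PlF (RatFunc K)) : PlF K := ⟨i.L, i.v, i.φ.comp (algebraMap K (RatFunc K))⟩

/-- the coefficients of a relation between functions which do not depend on the variable vanish -/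
theorem coeff_vanish [Algebra.EssFiniteType ℚ K] {ι : Type} [Fintype ι]
    {Z : ι → ∀ i : PlF (RatFunc K), i.Lv} (hZ : ∀ a, Cdat (Z a)) (G : MvPolynomial ι K[X])
    (hG : ∀ i : PlF (RatFunc K), MvPolynomial.eval₂ (i.φ.comp (algebraMap K[X] (RatFunc K)))
      (fun a => Z a i) G = 0) (j : ℕ) (i : PlF (RatFunc K)) :
    ∑ m ∈ G.support, i.φ (algebraMap K (RatFunc K) ((G.coeff m).coeff j)) *
      ∏ a, Z a i ^ m a = 0 := by
  classical
  set i0 := cstPl i with hi0
  have hψ : ∀ c, i0.φ c = i.φ (algebraMap K (RatFunc K) c) := fun _ => rfl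
  let zz : ι → i0.Lv := fun a => Z a i
  set Q : i0.Lv[X] := ∑ m ∈ G.support, (G.coeff m).map i0.φ *
    (C (∏ a, zz a ^ m a) : i0.Lv[X]) with hQ
  have hev : ∀ τ : i0.Lv, Transcendental K τ → Q.eval τ = 0 := by
    intro τ hτ
    have h1 := hG (tauPl i0 hτ)
    rw [MvPolynomial.eval₂_eq'] at h1
    rw [hQ, eval_finsetSum]
    refine Eq.trans ?_ h1
    refine Finset.sum_congr rfl fun m _ => ?_
    rw [eval_mul, eval_C]
    congr 1
    · exact (tauPl_pol i0 hτ _).symm
    · refine Finset.prod_congr rfl fun a _ => ?_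
      congr 1
      refine (hZ a).eq i.L i.v i.φ (embF hτ : RatFunc K →+* i0.Lv) fun c => ?_
      exact (tauPl_C i0 hτ c).symm
  have hQ0 : Q = 0 := by
    obtain ⟨ϖ, hϖ0, hϖ1, -⟩ := exists_unif i0.v
    set w : i0.Lv := algebraMap i0.L i0.Lv ϖ with hw
    have hw0 : w ≠ 0 := (_root_.map_ne_zero _).2 hϖ0
    have hwn : 0 < ‖w‖ := norm_pos_iff.2 hw0
    choose τ hτ1 hτ2 using fun n : ℕ => exists_at_distance i0 0 (pow_ne_zero n hw0)
    refine Polynomial.eq_zero_of_infinite_isRoot Q ?_
    refine Set.infinite_of_injective_forall_mem (f := τ) ?_ (fun n => hev _ (hτ1 n))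
    intro a b hab
    have h1 : ‖w‖ ^ a = ‖w‖ ^ b := by
      rw [← norm_pow, ← norm_pow, ← hτ2 a, ← hτ2 b, hab]
    exact pow_right_injective₀ hwn hϖ1.ne h1
  have h2 := congrArg (fun q : i0.Lv[X] => q.coeff j) hQ0
  simp only [hQ, finsetSum_coeff, coeff_mul_C, coeff_map, coeff_zero] at h2
  exact h2

section place

variable {M : Type} [Field M] [Algebra (RatFunc K) M]

/-- the constants in `M` -/
noncomputable def cM (c : K) : M := algebraMap (RatFunc K) M (algebraMap K (RatFunc K) c)

/-- **Independent functions.** If the elements `g a` have values which do not depend on the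
variable, and satisfy a polynomial relation with coefficients in `K[X]`, then its coefficients
vanish at all local places. -/
theorem exists_zero [Algebra.EssFiniteType ℚ K]
    (pl : ∀ i : PlF (RatFunc K), Plc (RatFunc K) M (AlgebraicClosure i.Lv))
    {ι : Type} [Fintype ι] {g : ι → M} {Z : ι → ∀ i : PlF (RatFunc K), i.Lv}
    (hZ : ∀ a, Cdat (Z a))
    (hval : ∀ a i, (pl i).val (g a) (algebraMap i.Lv (AlgebraicClosure i.Lv) (Z a i)))
    (G : MvPolynomial ι K[X])
    (hG : MvPolynomial.aeval g (G.map (algebraMap K[X] (RatFunc K))) = 0) (j : ℕ)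
    (i : PlF (RatFunc K)) :
    (pl i).val (∑ m ∈ G.support, algebraMap (RatFunc K) M
      (algebraMap K (RatFunc K) ((G.coeff m).coeff j)) * ∏ a, g a ^ m a) 0 := by
  have hcomm : ∀ (i : PlF (RatFunc K)) (r : RatFunc K),
      algebraMap (RatFunc K) (AlgebraicClosure i.Lv) r =
      algebraMap i.Lv (AlgebraicClosure i.Lv) (i.φ r) :=
    fun i r => IsScalarTower.algebraMap_apply (RatFunc K) i.Lv _ r
  have h0 : ∀ i : PlF (RatFunc K), MvPolynomial.eval₂ (i.φ.comp (algebraMap K[X] (RatFunc K)))
      (fun a => Z a i) G = 0 := by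
    intro i
    have h1 := val_mvaeval (hval · i) (G.map (algebraMap K[X] (RatFunc K)))
    rw [hG] at h1
    have h2 : (pl i).val (0 : M) 0 := ⟨zero_mem _, map_zero (pl i).ρ⟩
    have h3 := h2.unique h1
    apply (algebraMap i.Lv (AlgebraicClosure i.Lv)).injective
    rw [map_zero, h3, MvPolynomial.aeval_def, MvPolynomial.eval₂_map,
      MvPolynomial.eval₂_comp_left]
    rfl
  have h1 := coeff_vanish hZ G h0 j i
  have h2 : (pl i).val (∑ m ∈ G.support, algebraMap (RatFunc K) M
      (algebraMap K (RatFunc K) ((G.coeff m).coeff j)) * ∏ a, g a ^ m a)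
      (algebraMap i.Lv (AlgebraicClosure i.Lv) (∑ m ∈ G.support,
        i.φ (algebraMap K (RatFunc K) ((G.coeff m).coeff j)) * ∏ a, Z a i ^ m a)) := by
    rw [map_sum]
    refine Plc.val_sum _ (fun m _ => ?_)
    rw [map_mul, map_prod, ← hcomm]
    refine (Plc.val_alg _).mul ?_
    have key : ∀ s : Finset ι, (pl i).val (∏ a ∈ s, g a ^ m a)
        (∏ a ∈ s, algebraMap i.Lv (AlgebraicClosure i.Lv) (Z a i ^ m a)) := by
      classical
      intro s
      induction s using Finset.induction_on with
      | empty =>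
        rw [Finset.prod_empty, Finset.prod_empty]
        exact ⟨one_mem _, map_one (pl i).ρ⟩
      | insert a s ha ih =>
        rw [Finset.prod_insert ha, Finset.prod_insert ha, map_pow]
        exact ((hval a i).pow _).mul ih
    exact key _
  rw [h1, map_zero] at h2
  exact h2

end place

end Pool.Agent.H886.FG
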