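import Pool.Agent.H886.FG.Loc

/-!
# Adelic functions of the variable with Kummer classes supported in a finite set
-/

set_option autoImplicit false
set_option linter.unusedSectionVars false

open Polynomial IsDedekindDomain NumberField

namespace Pool.Agent.H886.FG

open Pool.Agent.TH954 Pool.Agent.Y791.BS Pool.Agent.Y791.BF

variable {K : Type} [Field K] [CharZero K]

/-- the product of powers of polynomials -/
noncomputable def mon (T : Finset K[X]) (e : K[X] → ℤ) : RatFunc K :=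
  ∏ π ∈ T, (algebraMap K[X] (RatFunc K) π) ^ e π

/-- the embedding of the rational functions given by a transcendental element -/
noncomputable def tauPl (i0 : PlF K) {τ : i0.Lv} (h : Transcendental K τ) : PlF (RatFunc K) :=
  ⟨i0.L, i0.v, (embF h : RatFunc K →+* i0.Lv)⟩

lemma tauPl_pol (i0 : PlF K) {τ : i0.Lv} (h : Transcendental K τ) (p : K[X]) :
    (embF h : RatFunc K →+* i0.Lv) (algebraMap K[X] (RatFunc K) p) = (p.map i0.φ).eval τ := by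
  change embF h _ = _
  rw [embF_algebraMap, aeval_def, eval_map]
  rfl

lemma tauPl_C (i0 : PlF K) {τ : i0.Lv} (h : Transcendental K τ) (c : K) :
    (embF h : RatFunc K →+* i0.Lv) (algebraMap K (RatFunc K) c) = i0.φ c :=
  (embF h).commutes c

/-- nonzero functions with Kummer classes supported in a finite set of polynomials -/
structure Kdat (T : Finset K[X]) (Y : ∀ i : PlF (RatFunc K), i.Lv) : Prop where
  irr : ∀ π ∈ T, Irreducible π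
  monic : ∀ π ∈ T, π.Monic
  ne : ∀ i, Y i ≠ 0
  kum : ∀ N : ℕ, 0 < N → ∃ (c : K) (e : K[X] → ℤ), c ≠ 0 ∧ ∀ i : PlF (RatFunc K), ∃ z : i.Lv,
    Y i = i.φ (algebraMap K (RatFunc K) c * mon T e) * z ^ N

/-- transcendental elements at a given distance -/
lemma exists_at_distance [Algebra.EssFiniteType ℚ K] (i0 : PlF K) (θ : i0.Lv) {r : i0.Lv}
    (hr : r ≠ 0) : ∃ τ : i0.Lv, Transcendental K τ ∧ ‖τ - θ‖ = ‖r‖ := by
  have hu := ultra i0.v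
  by_cases h1 : Transcendental K (θ + r)
  · exact ⟨θ + r, h1, by rw [add_sub_cancel_left]⟩
  · obtain ⟨y, hy, hyn⟩ := exists_transcendental' i0 (norm_pos_iff.2 hr)
    refine ⟨θ + r + y, fun h => hy ?_, ?_⟩
    · have e : y = (θ + r + y) - (θ + r) := by ring
      rw [e]
      exact h.sub (not_not.1 h1)
    · have e : θ + r + y - θ = r + y := by ring
      rw [e, IsUltrametricDist.norm_add_eq_max_of_norm_ne_norm hyn.ne']
      exact max_eq_left hyn.le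

variable {T : Finset K[X]} {Y : ∀ i : PlF (RatFunc K), i.Lv}

/-- the orders of the values near a root -/
theorem near_root [Algebra.EssFiniteType ℚ K] (hirr : ∀ π ∈ T, Irreducible π)
    (hmon : ∀ π ∈ T, π.Monic) (hY : ∀ i, Y i ≠ 0) {π : K[X]} (hπT : π ∈ T) (i0 : PlF K)
    {θ : i0.Lv} (hroot : (π.map i0.φ).eval θ = 0) {w : i0.Lv} (hw0 : w ≠ 0) (hw1 : ‖w‖ < 1)
    (hw : ∀ x : i0.Lv, x ≠ 0 → ∃ n : ℤ, ‖x‖ = ‖w‖ ^ n) :
    ∃ j0 : ℕ, ∀ j, j0 ≤ j → ∀ (τ1 τ2 : i0.Lv) (hτ1 : Transcendental K τ1)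
      (hτ2 : Transcendental K τ2), ‖τ1 - θ‖ = ‖w‖ ^ j → ‖τ2 - θ‖ = ‖w‖ ^ (j + 1) →
      ∀ u1 u2 : ℤ, ‖Y (tauPl i0 hτ1)‖ = ‖w‖ ^ u1 → ‖Y (tauPl i0 hτ2)‖ = ‖w‖ ^ u2 →
      ∀ N : ℕ, 0 < N → ∀ (c : K) (e : K[X] → ℤ), c ≠ 0 →
      (∀ i : PlF (RatFunc K), ∃ z : i.Lv,
        Y i = i.φ (algebraMap K (RatFunc K) c * mon T e) * z ^ N) →
      (N : ℤ) ∣ e π - (u2 - u1) := by
  classical
  have hu := ultra i0.v
  have hsep : (π.map i0.φ).Separable := ((hirr π hπT).separable).map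
  obtain ⟨q, hq⟩ := dvd_iff_isRoot.2 (show IsRoot (π.map i0.φ) θ from hroot)
  have hqθ : q.eval θ ≠ 0 := by
    intro h0
    obtain ⟨q', hq'⟩ := dvd_iff_isRoot.2 (show IsRoot q θ from h0)
    rw [hq', ← mul_assoc, ← sq] at hq
    have h1 := hsep.squarefree (X - C θ) ⟨q', by rw [hq, sq]⟩
    exact not_isUnit_X_sub_C θ h1
  have hother : ∀ π' ∈ T, π' ≠ π → (π'.map i0.φ).eval θ ≠ 0 := by
    intro π' hπ' hne h0
    have hcop : IsCoprime π' π := by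
      refine ((hirr π' hπ').coprime_iff_not_dvd).2 ?_
      intro hdvd
      exact hne (eq_of_monic_of_associated (hmon π' hπ') (hmon π hπT)
        ((hirr π' hπ').associated_of_dvd (hirr π hπT) hdvd))
    obtain ⟨a, b, hab⟩ := hcop
    have h1 := congrArg (fun f : K[X] => (f.map i0.φ).eval θ) hab
    simp only [Polynomial.map_add, Polynomial.map_mul, eval_add, eval_mul, h0, hroot,
      Polynomial.map_one, eval_one, mul_zero, add_zero] at h1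
    exact zero_ne_one h1
  -- constancy of the norms near the root
  have hδ : ∃ δ : ℝ, 0 < δ ∧ ∀ x : i0.Lv, ‖x - θ‖ < δ → ‖q.eval x‖ = ‖q.eval θ‖ ∧
      ∀ π' ∈ T, π' ≠ π → ‖(π'.map i0.φ).eval x‖ = ‖(π'.map i0.φ).eval θ‖ := by
    have h1 : ∀ π' : K[X], ∃ δ : ℝ, 0 < δ ∧ (π' ∈ T → π' ≠ π → ∀ x : i0.Lv, ‖x - θ‖ < δ →
        ‖(π'.map i0.φ).eval x‖ = ‖(π'.map i0.φ).eval θ‖) := by
      intro π'
      by_cases h : π' ∈ T ∧ π' ≠ π
      · obtain ⟨δ, hδ, H⟩ := norm_eval_near (π'.map i0.φ) (hother π' h.1 h.2)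
        exact ⟨δ, hδ, fun _ _ => H⟩
      · exact ⟨1, one_pos, fun h1 h2 => absurd ⟨h1, h2⟩ h⟩
    choose D hD HD using h1
    obtain ⟨δ0, hδ0, H0⟩ := norm_eval_near q hqθ
    obtain ⟨δ, hδ, hδ'⟩ : ∃ δ : ℝ, 0 < δ ∧ δ ≤ δ0 ∧ ∀ π' ∈ T, δ ≤ D π' := by
      have hne : (insert δ0 (T.image D)).Nonempty := Finset.insert_nonempty _ _
      refine ⟨(insert δ0 (T.image D)).min' hne, ?_, ?_, fun π' hπ' => ?_⟩
      · rw [Finset.lt_min'_iff]
        intro y hy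
        rcases Finset.mem_insert.1 hy with rfl | hy
        · exact hδ0
        · obtain ⟨π', -, rfl⟩ := Finset.mem_image.1 hy
          exact hD π'
      · exact Finset.min'_le _ _ (Finset.mem_insert_self _ _)
      · exact Finset.min'_le _ _ (Finset.mem_insert_of_mem (Finset.mem_image_of_mem _ hπ'))
    exact ⟨δ, hδ, fun x hx => ⟨H0 x (hx.trans_le hδ'.1),
      fun π' h1 h2 => HD π' h1 h2 x (hx.trans_le (hδ'.2 π' h1))⟩⟩
  obtain ⟨δ, hδ, Hδ⟩ := hδ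
  have hwn : 0 < ‖w‖ := norm_pos_iff.2 hw0
  obtain ⟨j0, hj0⟩ := exists_pow_lt_of_lt_one hδ hw1
  refine ⟨j0, fun j hj τ1 τ2 hτ1 hτ2 hd1 hd2 u1 u2 hu1 hu2 N hN c e hc H => ?_⟩
  have hlt1 : ‖τ1 - θ‖ < δ := by
    rw [hd1]
    exact (pow_le_pow_of_le_one hwn.le hw1.le hj).trans_lt hj0
  have hlt2 : ‖τ2 - θ‖ < δ := by
    rw [hd2]
    exact (pow_le_pow_of_le_one hwn.le hw1.le (by omega)).trans_lt hj0
  -- the norms of the monomials
  have hnorm : ∀ (τ : i0.Lv) (hτ : Transcendental K τ), ‖τ - θ‖ < δ → ∀ (c : K) (e : K[X] → ℤ),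
      ‖(tauPl i0 hτ).φ (algebraMap K (RatFunc K) c * mon T e)‖ =
        ‖i0.φ c‖ * ((∏ π' ∈ T.erase π, ‖(π'.map i0.φ).eval θ‖ ^ e π') *
          (‖τ - θ‖ * ‖q.eval θ‖) ^ e π) := by
    intro τ hτ hlt c e
    change ‖(embF hτ : RatFunc K →+* i0.Lv) _‖ = _
    rw [map_mul, norm_mul, tauPl_C, mon, map_prod, norm_prod, ← Finset.prod_erase_mul _ _ hπT]
    congr 1
    congr 1
    · refine Finset.prod_congr rfl fun π' hπ' => ?_
      rw [map_zpow₀, norm_zpow, tauPl_pol,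
        (Hδ τ hlt).2 π' (Finset.mem_of_mem_erase hπ') (Finset.ne_of_mem_erase hπ')]
    · rw [map_zpow₀, norm_zpow, tauPl_pol, hq, eval_mul, eval_sub, eval_X, eval_C, norm_mul,
        (Hδ τ hlt).1]
  obtain ⟨z1, hz1⟩ := H (tauPl i0 hτ1)
  obtain ⟨z2, hz2⟩ := H (tauPl i0 hτ2)
  have hz10 : z1 ≠ 0 := by
    rintro rfl
    apply hY (tauPl i0 hτ1)
    rw [hz1, zero_pow hN.ne', mul_zero]
  have hz20 : z2 ≠ 0 := by
    rintro rfl
    apply hY (tauPl i0 hτ2)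
    rw [hz2, zero_pow hN.ne', mul_zero]
  obtain ⟨r1, hr1⟩ := hw z1 hz10
  obtain ⟨r2, hr2⟩ := hw z2 hz20
  have e1 : ‖w‖ ^ u1 = ‖i0.φ c‖ * ((∏ π' ∈ T.erase π, ‖(π'.map i0.φ).eval θ‖ ^ e π') *
          (‖w‖ ^ j * ‖q.eval θ‖) ^ e π) * (‖w‖ ^ r1) ^ N := by
    have h1 : ‖w‖ ^ u1 = ‖(tauPl i0 hτ1).φ (algebraMap K (RatFunc K) c * mon T e)‖ * ‖z1‖ ^ N := by
      rw [← hu1, ← norm_pow, ← norm_mul]
      exact congrArg _ hz1
    rw [h1, hnorm τ1 hτ1 hlt1 c e, hd1]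
    congr 1
    exact congrArg (fun t : ℝ => t ^ N) hr1
  have e2 : ‖w‖ ^ u2 = ‖i0.φ c‖ * ((∏ π' ∈ T.erase π, ‖(π'.map i0.φ).eval θ‖ ^ e π') *
          (‖w‖ ^ (j + 1) * ‖q.eval θ‖) ^ e π) * (‖w‖ ^ r2) ^ N := by
    have h1 : ‖w‖ ^ u2 = ‖(tauPl i0 hτ2).φ (algebraMap K (RatFunc K) c * mon T e)‖ * ‖z2‖ ^ N := by
      rw [← hu2, ← norm_pow, ← norm_mul]
      exact congrArg _ hz2
    rw [h1, hnorm τ2 hτ2 hlt2 c e, hd2]
    congr 1
    exact congrArg (fun t : ℝ => t ^ N) hr2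
  have hA : ‖i0.φ c‖ * ((∏ π' ∈ T.erase π, ‖(π'.map i0.φ).eval θ‖ ^ e π') *
          (‖w‖ ^ j * ‖q.eval θ‖) ^ e π) ≠ 0 := by
    intro h0
    rw [h0, zero_mul] at e1
    exact (zpow_pos hwn _).ne' e1
  have e3 : ‖w‖ ^ u2 = ‖w‖ ^ (u1 + e π + N * (r2 - r1)) := by
    rw [e2, zpow_add₀ hwn.ne', zpow_add₀ hwn.ne', e1, mul_sub, zpow_sub₀ hwn.ne', pow_succ,
      mul_right_comm (‖w‖ ^ j) ‖w‖, mul_zpow _ ‖w‖, mul_comm (N : ℤ) r2, mul_comm (N : ℤ) r1,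
      zpow_mul, zpow_mul, zpow_natCast, zpow_natCast]
    have h4 : (‖w‖ ^ r1) ^ N ≠ 0 := (pow_pos (zpow_pos hwn _) _).ne'
    field_simp
  have h5 := zpow_right_injective₀ hwn hw1.ne e3
  exact ⟨-(r2 - r1), by rw [h5]; ring⟩

/-- an embedding and a root -/
lemma exists_root (hEmb : S_EmbFG) [Algebra.EssFiniteType ℚ K] {π : K[X]} (hπ : Irreducible π) :
    ∃ (i0 : PlF K) (θ : i0.Lv), (π.map i0.φ).eval θ = 0 := by
  obtain ⟨ρ, hρ⟩ := IsAlgClosed.exists_aeval_eq_zero (AlgebraicClosure K) π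
    (degree_pos_of_irreducible hπ).ne'
  obtain ⟨p, _, i0, ι₀, -, -, -, hv⟩ := hEmb K inferInstance {ρ} 0
  obtain ⟨θ, hθ, -⟩ := hv ρ (Finset.mem_singleton_self _)
  refine ⟨i0, θ, ?_⟩
  apply (algebraMap i0.Lv (AlgebraicClosure i0.Lv)).injective
  have h1 : aeval (ι₀ ρ) π = 0 := by rw [aeval_algHom_apply, hρ, map_zero]
  rw [map_zero, ← h1, ← hθ, aeval_algebraMap_apply]
  congr 1
  rw [eval_map, aeval_def]
  rfl

/-- the exponents are integers -/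
theorem exists_int (hEmb : S_EmbFG) [Algebra.EssFiniteType ℚ K] (hirr : ∀ π ∈ T, Irreducible π)
    (hmon : ∀ π ∈ T, π.Monic) (hY : ∀ i, Y i ≠ 0) {π : K[X]} (hπT : π ∈ T) :
    ∃ n : ℤ, ∀ N : ℕ, 0 < N → ∀ (c : K) (e : K[X] → ℤ), c ≠ 0 →
      (∀ i : PlF (RatFunc K), ∃ z : i.Lv,
        Y i = i.φ (algebraMap K (RatFunc K) c * mon T e) * z ^ N) → (N : ℤ) ∣ e π - n := by
  obtain ⟨i0, θ, hroot⟩ := exists_root hEmb (hirr π hπT)
  obtain ⟨ϖ, hϖ0, hϖ1, hϖ⟩ := exists_unif i0.v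
  set w : i0.Lv := algebraMap i0.L i0.Lv ϖ with hw
  have hw0 : w ≠ 0 := (_root_.map_ne_zero _).2 hϖ0
  obtain ⟨j, hj⟩ := near_root hirr hmon hY hπT i0 hroot hw0 hϖ1 hϖ
  obtain ⟨τ1, hτ1, hd1⟩ := exists_at_distance i0 θ (pow_ne_zero j hw0)
  obtain ⟨τ2, hτ2, hd2⟩ := exists_at_distance i0 θ (pow_ne_zero (j + 1) hw0)
  rw [norm_pow] at hd1 hd2
  obtain ⟨u1, hu1⟩ := hϖ _ (hY (tauPl i0 hτ1))
  obtain ⟨u2, hu2⟩ := hϖ _ (hY (tauPl i0 hτ2))
  exact ⟨u2 - u1, hj j le_rfl τ1 τ2 hτ1 hτ2 hd1 hd2 u1 u2 hu1 hu2⟩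

lemma mon_ne (hirr : ∀ π ∈ T, Irreducible π) (e : K[X] → ℤ) : mon T e ≠ 0 := by
  refine Finset.prod_ne_zero_iff.2 fun π hπ => zpow_ne_zero _ ?_
  exact (map_ne_zero_iff _ (RatFunc.algebraMap_injective K)).2 (hirr π hπ).ne_zero

/-- nonzero functions with constant Kummer classes -/
structure Cdat (Z : ∀ i : PlF (RatFunc K), i.Lv) : Prop where
  ne : ∀ i, Z i ≠ 0
  kum : ∀ N : ℕ, 0 < N → ∃ c : K, c ≠ 0 ∧ ∀ i : PlF (RatFunc K), ∃ z : i.Lv,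
    Z i = i.φ (algebraMap K (RatFunc K) c) * z ^ N

/-- functions with constant Kummer classes do not depend on the variable -/
theorem Cdat.eq {Z : ∀ i : PlF (RatFunc K), i.Lv} (h : Cdat Z) (L : Type) [Field L]
    [NumberField L] (v : HeightOneSpectrum (𝓞 L)) (φ φ' : RatFunc K →+* v.adicCompletion L)
    (hφ : ∀ c : K, φ (algebraMap K (RatFunc K) c) = φ' (algebraMap K (RatFunc K) c)) :
    (Z ⟨L, v, φ⟩ : v.adicCompletion L) = Z ⟨L, v, φ'⟩ := by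
  have h1 := h.ne ⟨L, v, φ⟩
  have h2 := h.ne ⟨L, v, φ'⟩
  have key : (Z ⟨L, v, φ⟩ : v.adicCompletion L) / (Z ⟨L, v, φ'⟩ : v.adicCompletion L) = 1 := by
    refine eq_one_of_all_powers v (div_ne_zero h1 h2) fun N hN => ?_
    obtain ⟨c, hc, H⟩ := h.kum N hN
    obtain ⟨z, hz⟩ := H ⟨L, v, φ⟩
    obtain ⟨z', hz'⟩ := H ⟨L, v, φ'⟩
    refine ⟨(z : v.adicCompletion L) / (z' : v.adicCompletion L), ?_⟩
    have hc' : φ' (algebraMap K (RatFunc K) c) ≠ 0 :=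
      (_root_.map_ne_zero _).2 ((_root_.map_ne_zero _).2 hc)
    have e1 : (Z ⟨L, v, φ⟩ : v.adicCompletion L) = φ' (algebraMap K (RatFunc K) c) *
        (z : v.adicCompletion L) ^ N := by
      rw [← hφ]
      exact hz
    have e2 : (Z ⟨L, v, φ'⟩ : v.adicCompletion L) = φ' (algebraMap K (RatFunc K) c) *
        (z' : v.adicCompletion L) ^ N := hz'
    rw [e1, e2, mul_div_mul_left _ _ hc', div_pow]
  exact (div_eq_one_iff_eq h2).1 key

/-- the functions with Kummer classes supported in a finite set are rational functions, up to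
functions which do not depend on the variable -/
theorem Kdat.cdat (hEmb : S_EmbFG) [Algebra.EssFiniteType ℚ K] (h : Kdat T Y) :
    ∃ n : K[X] → ℤ, Cdat (fun i => Y i / i.φ (mon T n)) ∧
      ∀ π ∈ T, ∀ N : ℕ, 0 < N → ∀ (c : K) (e : K[X] → ℤ), c ≠ 0 →
      (∀ i : PlF (RatFunc K), ∃ z : i.Lv,
        Y i = i.φ (algebraMap K (RatFunc K) c * mon T e) * z ^ N) → (N : ℤ) ∣ e π - n π := by
  classical
  have h1 : ∀ π : K[X], ∃ n : ℤ, π ∈ T → ∀ N : ℕ, 0 < N → ∀ (c : K) (e : K[X] → ℤ), c ≠ 0 →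
      (∀ i : PlF (RatFunc K), ∃ z : i.Lv,
        Y i = i.φ (algebraMap K (RatFunc K) c * mon T e) * z ^ N) → (N : ℤ) ∣ e π - n := by
    intro π
    by_cases hπ : π ∈ T
    · obtain ⟨n, hn⟩ := exists_int hEmb h.irr h.monic h.ne hπ
      exact ⟨n, fun _ => hn⟩
    · exact ⟨0, fun h => absurd h hπ⟩
  choose n hn using h1
  refine ⟨n, ⟨fun i => div_ne_zero (h.ne i) ((_root_.map_ne_zero _).2 (mon_ne h.irr n)),
    fun N hN => ?_⟩, hn⟩
  obtain ⟨c, e, hc, H⟩ := h.kum N hN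
  have h2 : ∀ π : K[X], ∃ m : ℤ, π ∈ T → e π = n π + m * N := by
    intro π
    by_cases hπ : π ∈ T
    · obtain ⟨m, hm⟩ := hn π hπ N hN c e hc H
      exact ⟨m, fun _ => by linear_combination hm⟩
    · exact ⟨0, fun h => absurd h hπ⟩
  choose m hm using h2
  have h3 : mon T e = mon T n * mon T m ^ N := by
    unfold mon
    rw [← Finset.prod_pow, ← Finset.prod_mul_distrib]
    refine Finset.prod_congr rfl fun π hπ => ?_
    have h4 : algebraMap K[X] (RatFunc K) π ≠ 0 :=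
      (map_ne_zero_iff _ (RatFunc.algebraMap_injective K)).2 (h.irr π hπ).ne_zero
    rw [hm π hπ, zpow_add₀ h4, zpow_mul, zpow_natCast]
  refine ⟨c, hc, fun i => ?_⟩
  obtain ⟨z, hz⟩ := H i
  refine ⟨i.φ (mon T m) * z, ?_⟩
  have h5 : i.φ (mon T n) ≠ 0 := (_root_.map_ne_zero _).2 (mon_ne h.irr n)
  rw [hz, h3, map_mul, map_mul, map_pow, div_eq_iff h5]
  ring

end Pool.Agent.H886.FG
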