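import Mathlib

/-!
# Linear relations with coefficients in the rational functions
-/

set_option autoImplicit false

open Polynomial

namespace Pool.Agent.H886.FG

variable {K Ω : Type} [Field K] [Field Ω] [Algebra (RatFunc K) Ω] [Algebra K Ω]
  [IsScalarTower K (RatFunc K) Ω]

/-- a relation between an element and `1` over the rational functions -/
lemma iso_pair (E : IntermediateField K Ω)
    (hS : Transcendental E (algebraMap (RatFunc K) Ω RatFunc.X)) {u v : Ω} (hu : u ∈ E)
    (hv : v ∈ E) (hu' : ∀ q : K, u ≠ algebraMap K Ω q) {a b c : RatFunc K} (hb : b ≠ 0)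
    (h : algebraMap (RatFunc K) Ω a * u - algebraMap (RatFunc K) Ω b * v =
      algebraMap (RatFunc K) Ω c) :
    ∃ l m : K, a = algebraMap K (RatFunc K) l * b ∧ c = algebraMap K (RatFunc K) m * b := by
  classical
  obtain ⟨d, hd⟩ := IsLocalization.exist_integer_multiples_of_finset (nonZeroDivisors K[X])
    ({a, b, c} : Finset (RatFunc K))
  obtain ⟨p, hp⟩ := hd a (by simp)
  obtain ⟨q, hq⟩ := hd b (by simp)
  obtain ⟨r, hr⟩ := hd c (by simp)
  have hd0 : algebraMap K[X] (RatFunc K) d ≠ 0 :=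
    (map_ne_zero_iff _ (RatFunc.algebraMap_injective K)).2 (nonZeroDivisors.coe_ne_zero d)
  rw [Algebra.smul_def] at hp hq hr
  have hev : ∀ P : K[X], algebraMap (RatFunc K) Ω (algebraMap K[X] (RatFunc K) P) =
      aeval (algebraMap (RatFunc K) Ω RatFunc.X) (P.map (algebraMap K E)) := by
    intro P
    rw [aeval_map_algebraMap, ← RatFunc.algebraMap_X (K := K), aeval_algebraMap_apply]
    congr 1
    rw [aeval_algebraMap_apply]
    congr 1
    exact (aeval_X_left_apply P).symm
  have hz : aeval (algebraMap (RatFunc K) Ω RatFunc.X)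
      (p.map (algebraMap K E) * C ⟨u, hu⟩ - q.map (algebraMap K E) * C ⟨v, hv⟩ -
        r.map (algebraMap K E)) = 0 := by
    rw [map_sub, map_sub, map_mul, map_mul, ← hev, ← hev, ← hev, hp, hq, hr, aeval_C, aeval_C,
      map_mul, map_mul, map_mul, ← h]
    change algebraMap (RatFunc K) Ω _ * _ * u - algebraMap (RatFunc K) Ω _ * _ * v - _ = 0
    ring
  have hz' := (transcendental_iff.1 hS) _ hz
  have hco : ∀ m, algebraMap K Ω (p.coeff m) * u - algebraMap K Ω (q.coeff m) * v =
      algebraMap K Ω (r.coeff m) := by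
    intro m
    have h1 := congrArg (fun P : E[X] => ((P.coeff m : E) : Ω)) hz'
    simp only [coeff_sub, coeff_mul_C, coeff_map, coeff_zero, AddSubgroupClass.coe_sub,
      MulMemClass.coe_mul, ZeroMemClass.coe_zero] at h1
    exact sub_eq_zero.1 h1
  have hq0 : q ≠ 0 := by
    rintro rfl
    rw [map_zero] at hq
    exact mul_ne_zero hd0 hb hq.symm
  obtain ⟨m0, hm0⟩ := Polynomial.support_nonempty.2 hq0
  rw [Polynomial.mem_support_iff] at hm0
  have hm0' : algebraMap K Ω (q.coeff m0) ≠ 0 := (_root_.map_ne_zero _).2 hm0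
  set l : K := p.coeff m0 / q.coeff m0 with hl
  set n : K := r.coeff m0 / q.coeff m0 with hn
  have hvu : v = algebraMap K Ω l * u - algebraMap K Ω n := by
    have h1 := hco m0
    rw [hl, hn, map_div₀, map_div₀]
    field_simp
    linear_combination -h1
  have hkey : ∀ m, p.coeff m = l * q.coeff m ∧ r.coeff m = n * q.coeff m := by
    intro m
    have h1 := hco m
    rw [hvu] at h1
    have h2 : algebraMap K Ω (p.coeff m - l * q.coeff m) * u =
        algebraMap K Ω (r.coeff m - n * q.coeff m) := by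
      rw [map_sub, map_sub, map_mul, map_mul]
      linear_combination h1
    by_cases h3 : p.coeff m - l * q.coeff m = 0
    · rw [h3, map_zero, zero_mul] at h2
      have h4 := (map_eq_zero _).1 h2.symm
      exact ⟨sub_eq_zero.1 h3, sub_eq_zero.1 h4⟩
    · exfalso
      apply hu' ((r.coeff m - n * q.coeff m) / (p.coeff m - l * q.coeff m))
      rw [map_div₀, eq_div_iff ((_root_.map_ne_zero _).2 h3), mul_comm]
      exact h2
  refine ⟨l, n, ?_, ?_⟩
  · have h1 : p = C l * q := by
      ext m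
      rw [coeff_C_mul]
      exact (hkey m).1
    rw [h1, map_mul, hq, RatFunc.algebraMap_C] at hp
    apply mul_left_cancel₀ hd0
    rw [← hp, RatFunc.algebraMap_eq_C]
    ring
  · have h1 : r = C n * q := by
      ext m
      rw [coeff_C_mul]
      exact (hkey m).2
    rw [h1, map_mul, hq, RatFunc.algebraMap_C] at hr
    apply mul_left_cancel₀ hd0
    rw [← hr, RatFunc.algebraMap_eq_C]
    ring

/-- **Three functions.** -/
theorem iso_three (E : IntermediateField K Ω)
    (hS : Transcendental E (algebraMap (RatFunc K) Ω RatFunc.X)) (f : Ω)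
    (hf : ∀ r : RatFunc K, f ≠ algebraMap (RatFunc K) Ω r) (θ c : Fin 3 → RatFunc K)
    (hc : ∀ i, c i ≠ 0)
    (hE : ∀ i, (f - algebraMap (RatFunc K) Ω (θ i)) / algebraMap (RatFunc K) Ω (c i) ∈ E) :
    ∃ q : K, (θ 2 - θ 0) / (θ 1 - θ 0) = algebraMap K (RatFunc K) q := by
  have hcΩ : ∀ i, algebraMap (RatFunc K) Ω (c i) ≠ 0 := fun i => (_root_.map_ne_zero _).2 (hc i)
  have key : ∀ j : Fin 3, ∃ m : K, θ j - θ 0 = algebraMap K (RatFunc K) m * c 0 := by
    intro j
    obtain ⟨l, m, h1, h2⟩ := iso_pair E hS (hE 0) (hE j) (fun q hq => hf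
        (algebraMap K (RatFunc K) q * c 0 + θ 0) (by
      rw [div_eq_iff (hcΩ 0)] at hq
      rw [map_add, map_mul, ← IsScalarTower.algebraMap_apply, ← hq]
      ring)) (hc j) (a := c 0) (c := θ j - θ 0) (by
      rw [mul_div_cancel₀ _ (hcΩ 0), mul_div_cancel₀ _ (hcΩ j), map_sub]
      ring)
    have hl : l ≠ 0 := by
      rintro rfl
      rw [map_zero, zero_mul] at h1
      exact hc 0 h1
    refine ⟨m / l, ?_⟩
    have hl' : algebraMap K (RatFunc K) l ≠ 0 := (_root_.map_ne_zero _).2 hl
    rw [h2, h1, map_div₀]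
    field_simp
  obtain ⟨m1, h1⟩ := key 1
  obtain ⟨m2, h2⟩ := key 2
  refine ⟨m2 / m1, ?_⟩
  rw [h1, h2, mul_div_mul_right _ _ (hc 0), map_div₀]

end Pool.Agent.H886.FG
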