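import Pool.Agent.H886.FG.Avoid
import Pool.Agent.H886.FG.Dep
import Pool.Graph.R_seed8.Y791.BC.Good

/-!
# Kummer classes supported in a fixed finite set
-/

set_option autoImplicit false
set_option linter.unusedSectionVars false

open Polynomial IsDedekindDomain NumberField

namespace Pool.Agent.H886.FG

open Pool.Agent.TH954 Pool.Agent.Y791.BS Pool.Agent.Y791.BF Pool.Agent.Y791.BC

/-- the values are bounded and bounded away from zero near a root of the polynomial, at one place -/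
def Avoids {K : Type} [Field K] [CharZero K] (Y : ∀ i : PlF (RatFunc K), i.Lv) (π : K[X]) : Prop :=
  ∃ (i0 : PlF K) (θ : i0.Lv) (r M : ℝ), (π.map i0.φ).eval θ = 0 ∧ 0 < r ∧
    ∀ (τ : i0.Lv) (hτ : Transcendental K τ), ‖τ - θ‖ < r →
      M⁻¹ ≤ ‖Y (tauPl i0 hτ)‖ ∧ ‖Y (tauPl i0 hτ)‖ ≤ M

variable {K : Type} [Field K] [CharZero K] {M : Type} [Field M]
  [CharZero M] [IsAlgClosed M] [Algebra (RatFunc K) M]

/-- the values of an element of the fixed field -/
theorem exists_values (A : SAct (RatFunc K) M)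
    (pl : ∀ i : PlF (RatFunc K), Plc (RatFunc K) M (AlgebraicClosure i.Lv))
    (hpl : ∀ i, GeoPlc A (pl i)) {y : M} (hy : y ∈ A.fix)
    (hval : ∀ i, ∃ c, c ≠ 0 ∧ (pl i).val y c) :
    ∃ Y : ∀ i : PlF (RatFunc K), i.Lv, (∀ i, Y i ≠ 0) ∧
      ∀ i, (pl i).val y (algebraMap i.Lv (AlgebraicClosure i.Lv) (Y i)) := by
  have h1 : ∀ i : PlF (RatFunc K), ∃ x : i.Lv, x ≠ 0 ∧
      (pl i).val y (algebraMap i.Lv (AlgebraicClosure i.Lv) x) := by
    intro i
    have inst4 : CharZero i.Lv := charZero_compl i.v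
    obtain ⟨c, hc0, hc⟩ := hval i
    obtain ⟨x, hx⟩ := value_base A (hpl i) hy hc.mem
    have e : algebraMap i.Lv (AlgebraicClosure i.Lv) x = c := by
      rw [hx]
      exact hc.2
    refine ⟨x, ?_, by rw [e]; exact hc⟩
    rintro rfl
    rw [map_zero] at e
    exact hc0 e.symm
  choose Y hY0 hY using h1
  exact ⟨Y, hY0, hY⟩

/-- the Kummer classes of the values -/
theorem values_kum (A : SAct (RatFunc K) M)
    (pl : ∀ i : PlF (RatFunc K), Plc (RatFunc K) M (AlgebraicClosure i.Lv))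
    (hpl : ∀ i, GeoPlc A (pl i)) {y : M} {Y : ∀ i : PlF (RatFunc K), i.Lv}
    (hY : ∀ i, (pl i).val y (algebraMap i.Lv (AlgebraicClosure i.Lv) (Y i)))
    {r : RatFunc K} (hr0 : r ≠ 0) {w : M} (hw : w ∈ A.fix) {N : ℕ} (hN : 0 < N)
    (he : y = algebraMap (RatFunc K) M r * w ^ N) (i : PlF (RatFunc K)) :
    ∃ z : i.Lv, Y i = i.φ r * z ^ N := by
  have inst4 : CharZero i.Lv := charZero_compl i.v
  have hcomm : algebraMap (RatFunc K) (AlgebraicClosure i.Lv) r =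
      algebraMap i.Lv (AlgebraicClosure i.Lv) (i.φ r) :=
    IsScalarTower.algebraMap_apply (RatFunc K) i.Lv _ r
  have hrM : algebraMap (RatFunc K) M r ≠ 0 := (_root_.map_ne_zero _).2 hr0
  have hrC : algebraMap (RatFunc K) (AlgebraicClosure i.Lv) r ≠ 0 := (_root_.map_ne_zero _).2 hr0
  have hv2 := (hY i).mul ((Plc.val_alg (pl := pl i) r).inv hrC)
  have e1 : y * (algebraMap (RatFunc K) M r)⁻¹ = w ^ N := by
    rw [he, mul_right_comm, mul_inv_cancel₀ hrM, one_mul]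
  rw [e1] at hv2
  have hwW : w ∈ (pl i).W := Plc.mem_of_pow_mem hN hv2.mem
  obtain ⟨z, hz⟩ := value_base A (hpl i) hw hwW
  refine ⟨z, ?_⟩
  have hv3 : (pl i).val (w ^ N) ((algebraMap i.Lv (AlgebraicClosure i.Lv) z) ^ N) :=
    Plc.val.pow ⟨hwW, hz.symm⟩ N
  have h4 := hv3.unique hv2
  apply (algebraMap i.Lv (AlgebraicClosure i.Lv)).injective
  rw [map_mul, map_pow, h4, ← hcomm, mul_comm, mul_assoc, inv_mul_cancel₀ hrC, mul_one]

/-- **Few contacts.** Kummer representations supported in a fixed finite set. -/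
theorem exists_kum [Algebra.EssFiniteType ℚ K] (A : SAct (RatFunc K) M)
    (pl : ∀ i : PlF (RatFunc K), Plc (RatFunc K) M (AlgebraicClosure i.Lv))
    (hpl : ∀ i, GeoPlc A (pl i)) {y : M} (hy : y ∈ A.fix) (hy0 : y ≠ 0)
    {Y : ∀ i : PlF (RatFunc K), i.Lv} (hY0 : ∀ i, Y i ≠ 0)
    (hY : ∀ i, (pl i).val y (algebraMap i.Lv (AlgebraicClosure i.Lv) (Y i)))
    (T : Finset K[X]) (hirr : ∀ π ∈ T, Irreducible π)
    (hfew : ∀ π : K[X], Irreducible π → π.Monic → π ∉ T → Avoids Y π) (N : ℕ) (hN : 0 < N) :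
    ∃ (c : K) (e : K[X] → ℤ) (w : M), c ≠ 0 ∧ w ∈ A.fix ∧
      y = algebraMap (RatFunc K) M (algebraMap K (RatFunc K) c * mon T e) * w ^ N := by
  classical
  have hall : ∀ N : ℕ, 0 < N → ∃ (T : Finset K[X]) (c : K) (e : K[X] → ℤ) (w : M),
      (∀ π ∈ T, Irreducible π) ∧ (∀ π ∈ T, π.Monic) ∧ c ≠ 0 ∧ w ∈ A.fix ∧
      y = algebraMap (RatFunc K) M (algebraMap K (RatFunc K) c * mon T e) * w ^ N := by
    intro N hN
    obtain ⟨r, hr, w, hw, he⟩ := A.kummer hy hy0 hN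
    obtain ⟨T, c, e, h1, h2, h3, h4⟩ := exists_mon r hr
    exact ⟨T, c, e, w, h1, h2, h3, hw, by rw [← h4]; exact he⟩
  have hkum : ∀ N : ℕ, 0 < N → ∃ (T : Finset K[X]) (c : K) (e : K[X] → ℤ),
      (∀ π ∈ T, Irreducible π) ∧ (∀ π ∈ T, π.Monic) ∧ c ≠ 0 ∧
      ∀ i : PlF (RatFunc K), ∃ z : i.Lv,
        Y i = i.φ (algebraMap K (RatFunc K) c * mon T e) * z ^ N := by
    intro N hN
    obtain ⟨T, c, e, w, h1, h2, h3, hw, he⟩ := hall N hN
    exact ⟨T, c, e, h1, h2, h3, values_kum A pl hpl hY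
      (mul_ne_zero ((_root_.map_ne_zero _).2 h3) (mon_ne h1 e)) hw hN he⟩
  obtain ⟨T', c, e, w, h1, h2, h3, hw, he⟩ := hall N hN
  have hdvd : ∀ π ∈ T', π ∉ T → (N : ℤ) ∣ e π := by
    intro π hπ hπT
    obtain ⟨i0, θ, r, M', hroot, hr, hM⟩ := hfew π (h1 π hπ) (h2 π hπ) hπT
    exact avoid_dvd hY0 i0 hroot hr hM hkum h1 h2 hπ hN h3 (values_kum A pl hpl hY
      (mul_ne_zero ((_root_.map_ne_zero _).2 h3) (mon_ne h1 e)) hw hN he)
  have hm : ∀ π : K[X], ∃ m : ℤ, π ∈ T' → π ∉ T → e π = m * N := by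
    intro π
    by_cases h : π ∈ T' ∧ π ∉ T
    · obtain ⟨m, hm⟩ := hdvd π h.1 h.2
      exact ⟨m, fun _ _ => by rw [hm, mul_comm]⟩
    · exact ⟨0, fun h4 h5 => absurd ⟨h4, h5⟩ h⟩
  choose m hm using hm
  have hi : ∀ π ∈ T ∪ T', Irreducible π :=
    fun π hπ => (Finset.mem_union.1 hπ).elim (hirr π) (h1 π)
  set e1 : K[X] → ℤ := fun π => if π ∈ T' then e π else 0 with he1
  set e2 : K[X] → ℤ := fun π => if π ∈ T then e1 π else 0 with he2
  set m2 : K[X] → ℤ := fun π => if π ∈ T' ∧ π ∉ T then m π else 0 with hm2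
  have key : mon T' e = mon T e1 * mon (T ∪ T') m2 ^ N := by
    rw [mon_extend (Finset.subset_union_right : T' ⊆ T ∪ T') e,
      mon_extend (Finset.subset_union_left : T ⊆ T ∪ T') e1, ← mon_mul_pow hi]
    refine mon_congr fun π hπ => ?_
    by_cases hT : π ∈ T
    · simp only [he1, hm2, hT, not_true_eq_false, and_false, if_false, zero_mul, add_zero, if_true]
    · have hT' : π ∈ T' := (Finset.mem_union.1 hπ).resolve_left hT
      simp only [hm2, hT, hT', not_false_eq_true, and_self, if_true, if_false, zero_add]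
      exact hm π hT' hT
  refine ⟨c, e1, algebraMap (RatFunc K) M (mon (T ∪ T') m2) * w, h3,
    mul_mem (A.fix.algebraMap_mem _) hw, ?_⟩
  rw [he, key]
  simp only [map_mul, map_pow]
  ring

end Pool.Agent.H886.FG
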