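import Pool.Graph.R_seed8.Y791.BF.Final2
import Pool.Graph.R_seed8.Y791.BC.Good

/-!
# Values over completions: powers, and polynomials near a root
-/

set_option autoImplicit false
set_option linter.unusedSectionVars false

open Polynomial IsDedekindDomain NumberField

namespace Pool.Agent.H886.FG

open Pool.Agent.TH954 Pool.Agent.Y791.BS Pool.Agent.Y791.BF

section pow

variable {L : Type} [NormedField L] [IsUltrametricDist L]

lemma pow_near {u : L} {r : ℝ} (hr : r ≤ 1) (h : ‖u - 1‖ < r) (n : ℕ) : ‖u ^ n - 1‖ < r := by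
  have hr0 : 0 < r := lt_of_le_of_lt (norm_nonneg _) h
  have hu : ‖u‖ = 1 := by
    have e : u = (u - 1) + 1 := by ring
    rw [e, IsUltrametricDist.norm_add_eq_max_of_norm_ne_norm (by rw [norm_one]; exact (h.trans_le hr).ne),
      norm_one]
    exact max_eq_right (h.trans_le hr).le
  induction n with
  | zero => rw [pow_zero, sub_self, norm_zero]; exact hr0
  | succ n ih =>
    have e : u ^ (n + 1) - 1 = u ^ n * (u - 1) + (u ^ n - 1) := by ring
    rw [e]
    refine lt_of_le_of_lt (IsUltrametricDist.norm_add_le_max _ _) (max_lt ?_ ih)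
    rw [norm_mul, norm_pow, hu, one_pow, one_mul]
    exact h

/-- a power which maps all units near one -/
lemma exists_pow_unit [ProperSpace L] {r : ℝ} (hr0 : 0 < r) (hr : r ≤ 1) :
    ∃ m : ℕ, 0 < m ∧ ∀ u : L, ‖u‖ = 1 → ‖u ^ m - 1‖ < r := by
  classical
  have hc : IsCompact (Metric.sphere (0 : L) 1) := isCompact_sphere 0 1
  obtain ⟨t, ht, hcov⟩ := hc.finite_cover_balls hr0
  obtain ⟨-, htf, hcov⟩ := (⟨ht, hcov⟩ : t ⊆ _ ∧ t.Finite ∧ _)
  have := htf.fintype
  refine ⟨(Fintype.card t + 1).factorial, Nat.factorial_pos _, fun u hu => ?_⟩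
  have hs : ∀ n : ℕ, u ^ n ∈ Metric.sphere (0 : L) 1 := by
    intro n
    rw [mem_sphere_zero_iff_norm, norm_pow, hu, one_pow]
  have hmem : ∀ n : ℕ, ∃ c : t, ‖u ^ n - c‖ < r := by
    intro n
    obtain ⟨c, hc1, hc2⟩ := Set.mem_iUnion₂.1 (hcov (hs n))
    exact ⟨⟨c, hc1⟩, by rw [← dist_eq_norm]; exact hc2⟩
  choose c hc using hmem
  obtain ⟨a, b, hab, e⟩ := Fintype.exists_ne_map_eq_of_card_lt
    (fun n : Fin (Fintype.card t + 1) => c n) (by simp)
  wlog hlt : a < b generalizing a b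
  · exact this b a hab.symm e.symm (lt_of_le_of_ne (not_lt.1 hlt) hab.symm)
  have h1 : ‖u ^ (b : ℕ) - u ^ (a : ℕ)‖ < r := by
    have e1 : u ^ (b : ℕ) - u ^ (a : ℕ) = (u ^ (b : ℕ) - c b) + -(u ^ (a : ℕ) - c a) := by
      have e' : c (a : ℕ) = c (b : ℕ) := e
      rw [e']
      ring
    rw [e1]
    refine lt_of_le_of_lt (IsUltrametricDist.norm_add_le_max _ _) (max_lt (hc _) ?_)
    rw [norm_neg]
    exact hc _
  have hab' : (a : ℕ) < b := hlt
  have h2 : ‖u ^ ((b : ℕ) - a) - 1‖ < r := by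
    have e2 : u ^ (b : ℕ) - u ^ (a : ℕ) = u ^ (a : ℕ) * (u ^ ((b : ℕ) - a) - 1) := by
      rw [mul_sub, ← pow_add, Nat.add_sub_cancel' hab'.le, mul_one]
    rw [e2, norm_mul, norm_pow, hu, one_pow, one_mul] at h1
    exact h1
  obtain ⟨q, hq⟩ := Nat.dvd_factorial (m := (b : ℕ) - a) (n := Fintype.card t + 1) (by omega) (by omega)
  rw [hq, pow_mul]
  exact pow_near hr h2 q

end pow

/-- an element of a completion which is a power with all exponents is one -/
theorem eq_one_of_all_powers {L : Type} [Field L] [NumberField L] (v : HeightOneSpectrum (𝓞 L))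
    {x : v.adicCompletion L} (hx : x ≠ 0)
    (h : ∀ n : ℕ, 0 < n → ∃ z : v.adicCompletion L, z ^ n = x) : x = 1 := by
  have h1 := ultra v
  have h2 := proper v
  obtain ⟨π, hπ0, hπ1, hπ⟩ := exists_unif v
  set q : ℝ := ‖algebraMap L (v.adicCompletion L) π‖ with hq
  have hq0 : 0 < q := norm_pos_iff.2 ((_root_.map_ne_zero _).2 hπ0)
  obtain ⟨a, ha⟩ := hπ x hx
  have ha0 : a = 0 := by
    obtain ⟨z, hz⟩ := h (a.natAbs + 1) (Nat.succ_pos _)
    have hz0 : z ≠ 0 := by
      rintro rfl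
      apply hx
      rw [← hz, zero_pow (Nat.succ_ne_zero _)]
    obtain ⟨b, hb⟩ := hπ z hz0
    have h3 : q ^ (b * ((a.natAbs + 1 : ℕ) : ℤ)) = q ^ a := by
      rw [zpow_mul, zpow_natCast, ← hb, ← norm_pow, hz, ha]
    have h4 := zpow_right_injective₀ hq0 hπ1.ne h3
    have h5 : ((a.natAbs + 1 : ℕ) : ℤ) ∣ a := ⟨b, by rw [mul_comm]; exact h4.symm⟩
    by_contra hne
    have h6 := Int.natAbs_dvd_natAbs.2 h5
    rw [Int.natAbs_natCast] at h6
    have h7 := Nat.le_of_dvd (Int.natAbs_pos.2 hne) h6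
    omega
  have hx1 : ‖x‖ = 1 := by rw [ha, ha0, zpow_zero]
  by_contra hne
  have hpos : 0 < ‖x - 1‖ := norm_pos_iff.2 (sub_ne_zero.2 hne)
  obtain ⟨m, hm, H⟩ := exists_pow_unit (L := v.adicCompletion L) (r := min ‖x - 1‖ 1)
    (lt_min hpos one_pos) (min_le_right _ _)
  obtain ⟨z, hz⟩ := h m hm
  have hz1 : ‖z‖ = 1 := by
    have h3 : ‖z‖ ^ m = 1 := by rw [← norm_pow, hz, hx1]
    exact (pow_eq_one_iff_of_nonneg (norm_nonneg _) hm.ne').1 h3
  have h4 := H z hz1
  rw [hz] at h4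
  exact absurd (h4.trans_le (min_le_left _ _)) (lt_irrefl _)

section near

variable {L : Type} [NormedField L] [IsUltrametricDist L]

/-- the norm is constant near a point where the polynomial does not vanish -/
lemma norm_eval_near (p : L[X]) {θ : L} (h : p.eval θ ≠ 0) :
    ∃ δ : ℝ, 0 < δ ∧ ∀ x : L, ‖x - θ‖ < δ → ‖p.eval x‖ = ‖p.eval θ‖ := by
  have hc : ContinuousAt (fun x => p.eval x) θ := p.continuous.continuousAt
  obtain ⟨δ, hδ, H⟩ := Metric.continuousAt_iff.1 hc ‖p.eval θ‖ (norm_pos_iff.2 h)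
  refine ⟨δ, hδ, fun x hx => ?_⟩
  have h1 := H (x := x) (by rw [dist_eq_norm]; exact hx)
  rw [dist_eq_norm] at h1
  have e : p.eval x = (p.eval x - p.eval θ) + p.eval θ := by ring
  rw [e, IsUltrametricDist.norm_add_eq_max_of_norm_ne_norm h1.ne]
  exact max_eq_right h1.le

end near

end Pool.Agent.H886.FG
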