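import Pool.Agent.H886.FG.Act
import Pool.Graph.R_seed8.Y791.BF.Final2
import Pool.Graph.R_seed8.Y791.BC.Desc
import Pool.Graph.R_seed8.Y791.BC.Cyc
import Pool.Graph.R_seed8.Y791.BF.FrobRes
import Pool.Graph.R_seed8.Y791.BF.EmbFG
import Pool.Graph.R_seed8.Y791.BF.ObsFG
import Pool.Graph.R_pool_sql_team_seeded_63374d34.N890.KO.All

/-!
# Birational sections over fields with a finite extension which is a rational function field
-/

set_option autoImplicit false
set_option linter.unusedSectionVars false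

open Polynomial IsDedekindDomain NumberField

namespace Pool.Agent.H886.FG

open Pool.Agent.TH954 Pool.Agent.Y791.BS Pool.Agent.Y791.BF Pool.Agent.Y791.BC

section emb

variable {k k1 Ω : Type} [Field k] [Field k1] [Field Ω] [Algebra k k1] [Algebra k Ω]
  [Algebra k1 Ω] [IsScalarTower k k1 Ω] [Algebra.IsAlgebraic k k1]

/-- the embedding of an algebraic extension in the algebraic closure -/
lemma exists_kappa (j : AlgebraicClosure k →ₐ[k] Ω) : ∃ κ : k1 →ₐ[k] AlgebraicClosure k,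
    ∀ r, j (κ r) = algebraMap k1 Ω r := by
  have h1 : ∀ r : k1, algebraMap k1 Ω r ∈ j.range := by
    intro r
    have h2 : IsAlgebraic k (algebraMap k1 Ω r) :=
      (Algebra.IsAlgebraic.isAlgebraic (R := k) r).algebraMap
    obtain ⟨z, hz⟩ := alg_range j h2
    exact ⟨z, hz⟩
  let e : AlgebraicClosure k ≃ₐ[k] j.range := AlgEquiv.ofInjective j j.injective
  let κ : k1 →ₐ[k] AlgebraicClosure k :=
    (e.symm : j.range →ₐ[k] AlgebraicClosure k).comp
      ((IsScalarTower.toAlgHom k k1 Ω).codRestrict j.range h1)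
  refine ⟨κ, fun r => ?_⟩
  have h2 : e (κ r) = ⟨algebraMap k1 Ω r, h1 r⟩ := e.apply_symm_apply _
  exact congrArg Subtype.val h2

/-- the embedding is fixed if a generator is fixed -/
lemma exists_alpha [Module.Finite k k1] [Algebra.IsSeparable k k1]
    (κ : k1 →ₐ[k] AlgebraicClosure k) : ∃ α : AlgebraicClosure k,
      ∀ τ : AlgebraicClosure k ≃ₐ[k] AlgebraicClosure k, τ α = α → ∀ c, τ (κ c) = κ c := by
  obtain ⟨α, hα⟩ := Field.exists_primitive_element k k1
  refine ⟨κ α, fun τ hτ c => ?_⟩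
  have h1 : Algebra.adjoin k {α} = ⊤ := by
    rw [← IntermediateField.adjoin_simple_toSubalgebra_of_isAlgebraic
      (Algebra.IsAlgebraic.isAlgebraic α), hα, IntermediateField.top_toSubalgebra]
  have h2 : ((τ : AlgebraicClosure k →ₐ[k] AlgebraicClosure k).comp κ) = κ := by
    refine AlgHom.ext_of_adjoin_eq_top h1 fun x hx => ?_
    rw [Set.mem_singleton_iff.1 hx]
    exact hτ
  exact congrArg (fun f : k1 →ₐ[k] AlgebraicClosure k => f c) h2

end emb

section loc

variable {k K F Ω B : Type} [Field k] [CharZero k] [Field K] [Field F] [Field Ω] [Field B]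
  [Algebra k F] [Algebra F Ω] [Algebra k Ω] [Algebra k B] [IsScalarTower k F Ω]
  [Algebra.IsAlgebraic F Ω] [IsAlgClosure k B]
  [Algebra k (RatFunc K)] [Algebra (RatFunc K) Ω]
  [IsScalarTower k (RatFunc K) Ω]

/-- local points of the section -/
def Loc (s : GalSection k F Ω B) (i : PlF (RatFunc K))
    (P : Plc (RatFunc K) Ω (AlgebraicClosure i.Lv)) : Prop :=
  ∀ (σ : AlgebraicClosure i.Lv ≃ₐ[i.Lv] AlgebraicClosure i.Lv) (g : B ≃ₐ[k] B),
    (∀ z c, P.val (s.j z) c → P.val (s.j (g z)) (σ c)) →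
    ∀ y c, P.val y c → P.val (s.s g y) (σ c)

/-- local points of the section and compatible places of the action over the extension -/
theorem loc_iff (s : GalSection k F Ω B) (κ : RatFunc K →ₐ[k] AlgebraicClosure k)
    (hκ : ∀ r, (toSAct s).j (κ r) = algebraMap (RatFunc K) Ω r) (A1 : SAct (RatFunc K) Ω)
    (g : AlgebraicClosure (RatFunc K) ≃+* AlgebraicClosure k)
    (hg : ∀ c, g (algebraMap (RatFunc K) (AlgebraicClosure (RatFunc K)) c) = κ c)
    (hj : ∀ z, A1.j z = (toSAct s).j (g z))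
    (h1 : ∀ τ1, ∃ τ0 : AlgebraicClosure k ≃ₐ[k] AlgebraicClosure k, (∀ z, g (τ1 z) = τ0 (g z)) ∧
        ∀ x, A1.s τ1 x = (toSAct s).s τ0 x)
    (h2 : ∀ τ0 : AlgebraicClosure k ≃ₐ[k] AlgebraicClosure k, (∀ c, τ0 (κ c) = κ c) →
        ∃ τ1 : AlgebraicClosure (RatFunc K) ≃ₐ[RatFunc K] AlgebraicClosure (RatFunc K),
          (∀ z, g (τ1 z) = τ0 (g z)) ∧ ∀ x, A1.s τ1 x = (toSAct s).s τ0 x)
    (i : PlF (RatFunc K)) (P : Plc (RatFunc K) Ω (AlgebraicClosure i.Lv)) :
    Loc s i P ↔ GeoPlc A1 P := by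
  have hA : ∀ z, (toSAct s).j z = s.j (eqv k B z) := fun z => rfl
  have hAs : ∀ (τ : AlgebraicClosure k ≃ₐ[k] AlgebraicClosure k) (x : Ω),
      (toSAct s).s τ x = s.s ((eqv k B).autCongr τ) x := fun τ x => rfl
  have heq : ∀ (τ : AlgebraicClosure k ≃ₐ[k] AlgebraicClosure k) (z : AlgebraicClosure k),
      (eqv k B).autCongr τ (eqv k B z) = eqv k B (τ z) := by
    intro τ z
    change eqv k B (τ ((eqv k B).symm (eqv k B z))) = _
    rw [AlgEquiv.symm_apply_apply]
  have iv : ∀ w, P.val (A1.j w) (P.iot A1.j w) := fun w => P.iot_spec A1.j w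
  constructor
  · intro hL σ τ1 hστ x
    obtain ⟨τ0, e0, e1⟩ := h1 τ1
    have hv := hL σ ((eqv k B).autCongr τ0) (fun z c hc => by
      obtain ⟨w, rfl⟩ := (eqv k B).surjective z
      obtain ⟨w, rfl⟩ := g.surjective w
      rw [← hA, ← hj] at hc
      have h3 : P.iot A1.j w = c := (iv w).unique hc
      rw [heq, ← e0, ← hA, ← hj, ← h3, ← hστ w]
      exact iv (τ1 w)) x (P.ρ x) ⟨x.2, rfl⟩
    rw [← hAs, ← e1] at hv
    exact hv
  · intro hG σ g0 hc y c hy
    obtain ⟨τ0, rfl⟩ := (eqv k B).autCongr.surjective g0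
    have hfix : ∀ r, τ0 (κ r) = κ r := by
      intro r
      have e1 : P.val (s.j (eqv k B (κ r))) (algebraMap (RatFunc K) (AlgebraicClosure i.Lv) r) := by
        rw [← hA, hκ]
        exact Plc.val_alg r
      have e2 := hc _ _ e1
      have e3 : σ (algebraMap (RatFunc K) (AlgebraicClosure i.Lv) r) =
          algebraMap (RatFunc K) (AlgebraicClosure i.Lv) r := by
        rw [IsScalarTower.algebraMap_apply (RatFunc K) i.Lv (AlgebraicClosure i.Lv), σ.commutes]
      rw [heq, ← hA, e3] at e2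
      obtain ⟨w, hw⟩ := g.surjective (τ0 (κ r))
      rw [← hw, ← hj] at e2
      have e4 := (iv w).unique e2
      have e5 : P.val (A1.j (algebraMap (RatFunc K) _ r))
          (algebraMap (RatFunc K) (AlgebraicClosure i.Lv) r) := by
        rw [A1.j.commutes]
        exact Plc.val_alg r
      have e6 := (iv (algebraMap (RatFunc K) _ r)).unique e5
      have e7 := (P.iot A1.j).injective (e4.trans e6.symm)
      rw [← hw, e7, hg]
    obtain ⟨τ1, e1, e2⟩ := h2 τ0 hfix
    have hcmp : Compat (P.iot A1.j) σ τ1 := by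
      intro w
      have e3 : P.val (s.j (eqv k B (g w))) (P.iot A1.j w) := by
        rw [← hA, ← hj]
        exact iv w
      have e4 := hc _ _ e3
      rw [heq, ← hA, ← e1, ← hj] at e4
      exact (iv (τ1 w)).unique e4
    obtain ⟨h, e⟩ := hG σ τ1 hcmp ⟨y, hy.mem⟩
    rw [← hAs, ← e2]
    refine ⟨h, ?_⟩
    rw [e]
    congr 1
    exact hy.2

/-- the values at the local points are bounded and bounded away from zero near a root of the
polynomial, at one place -/
def AvoidsS (s : GalSection k F Ω B) (y : Ω) (π : K[X]) : Prop :=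
  ∃ (j : PlF K) (θ : j.Lv) (r C : ℝ), (π.map j.φ).eval θ = 0 ∧ 0 < r ∧
    ∀ φ : RatFunc K →+* j.Lv, (∀ c : K, φ (algebraMap K (RatFunc K) c) = j.φ c) →
      ‖φ RatFunc.X - θ‖ < r →
      ∀ P : Plc (RatFunc K) Ω (AlgebraicClosure (PlF.Lv ⟨j.L, j.v, φ⟩)), Loc s ⟨j.L, j.v, φ⟩ P →
        ∀ x : PlF.Lv ⟨j.L, j.v, φ⟩, P.val y (algebraMap _ _ x) → C⁻¹ ≤ ‖x‖ ∧ ‖x‖ ≤ C

end loc

/-- **Birational sections: functions with few contacts.** -/
theorem sec_main {k K F Ω B : Type} [Field k] [CharZero k] [Algebra.EssFiniteType ℚ k] [Field K]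
    [CharZero K] [Algebra.EssFiniteType ℚ K] [Field F] [Field Ω] [Field B]
    [Algebra k F] [Algebra F Ω] [Algebra k Ω] [Algebra k B] [IsScalarTower k F Ω]
    [IsAlgClosure F Ω] [IsAlgClosure k B] [Algebra k (RatFunc K)] [Module.Finite k (RatFunc K)]
    [Algebra (RatFunc K) Ω] [IsScalarTower k (RatFunc K) Ω] [Algebra K Ω]
    [IsScalarTower K (RatFunc K) Ω]
    (hF : ∃ t : F, Transcendental k t ∧
      Algebra.IsAlgebraic (IntermediateField.adjoin k {t}) F)
    (s : GalSection k F Ω B) {ι : Type} [Finite ι] (y : ι → Ω) (hy0 : ∀ a, y a ≠ 0)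
    (hy : ∀ a (g : B ≃ₐ[k] B), (∀ z r, s.j z = algebraMap (RatFunc K) Ω r → g z = z) →
      s.s g (y a) = y a)
    (hval : ∀ a (i : PlF (RatFunc K)) (P : Plc (RatFunc K) Ω (AlgebraicClosure i.Lv)),
      Loc s i P → y a ∈ P.W ∧ (y a)⁻¹ ∈ P.W)
    (hfew : ∀ a, {π : K[X] | Irreducible π ∧ π.Monic ∧ ¬ AvoidsS s (y a) π}.Finite) :
    ∃ (c : ι → RatFunc K) (z : ι → ∀ j : PlF K, j.Lv), (∀ a, c a ≠ 0) ∧ (∀ a j, z a j ≠ 0) ∧
      (∀ a (i : PlF (RatFunc K)) (P : Plc (RatFunc K) Ω (AlgebraicClosure i.Lv)), Loc s i P →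
        P.val (y a / algebraMap (RatFunc K) Ω (c a))
          (algebraMap i.Lv (AlgebraicClosure i.Lv) (z a (cstPl i)))) ∧
      (IsAlgebraic (Algebra.adjoin K (Set.range fun a => y a / algebraMap (RatFunc K) Ω (c a)))
        (algebraMap (RatFunc K) Ω RatFunc.X) → ∃! O : ValuationSubring F, s.ArisesFrom O) := by
  classical
  have := Fintype.ofFinite ι
  have hEmb : S_EmbFG := EmbFG.main FrobRes.main
  have hObs : S_ObsFG := ObsFG.main FrobRes.main hEmb
  have hDesc : S_Desc := Desc.main hEmb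
  have hΩ1 : IsAlgClosed Ω := IsAlgClosure.isAlgClosed F
  have hΩ2 : Algebra.IsAlgebraic F Ω := IsAlgClosure.isAlgebraic
  have hcF : CharZero F := charZero_of_injective_algebraMap (algebraMap k F).injective
  have hcΩ : CharZero Ω := charZero_of_injective_algebraMap (algebraMap F Ω).injective
  set A := toSAct s with hA
  have hpl0 : ∀ i : PlF k, ∃ pl : Plc k Ω (AlgebraicClosure i.Lv), GeoPlc A pl := fun i =>
    toSAct_geo s (Pool.Agent.N890.KO.koenigsmann i.L i.v k F Ω B s)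
  choose pl hpl using hpl0
  obtain ⟨κ, hκ⟩ := exists_kappa (k1 := RatFunc K) A.j
  obtain ⟨α, hα⟩ := exists_alpha κ
  obtain ⟨A1, g, hg, hj, h1, h2⟩ := exists_base A (algebraMap k (RatFunc K))
    (κ : RatFunc K →+* AlgebraicClosure k) (fun c => κ.commutes c) (fun r => (hκ r).symm)
  have hex : ∀ i : PlF (RatFunc K), ∃ pl : Plc (RatFunc K) Ω (AlgebraicClosure i.Lv),
      GeoPlc A1 pl := exists_places A pl hpl (algebraMap k (RatFunc K))
    (κ : RatFunc K →+* AlgebraicClosure k) (fun c => κ.commutes c) (fun r => (hκ r).symm) A1 g hj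
    h1
  have hloc := fun i P => loc_iff s κ hκ A1 g hg hj h1 h2 i P
  have hdim : ∀ x : Ω, Transcendental (RatFunc K) x →
      ∀ t : Ω, IsAlgebraic (Algebra.adjoin (RatFunc K) {x}) t := by
    intro x hx t
    refine isAlgebraic_adjoin_of (algebraMap k (RatFunc K)) (fun c => ?_)
      ((alg_adjoin_of_dim hF x (fun h => hx ?_)).isAlgebraic t)
    · rw [← IsScalarTower.algebraMap_apply]
    · exact h.extendScalars (algebraMap k (RatFunc K)).injective
  have hfix : ∀ a, y a ∈ A1.fix := by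
    intro a τ1
    obtain ⟨τ0, e0, e1⟩ := h1 τ1
    rw [e1]
    refine hy a _ fun z r hz => ?_
    obtain ⟨w, rfl⟩ := (eqv k B).surjective z
    have h3 : w = κ r := by
      refine (A.j : AlgebraicClosure k →+* Ω).injective ?_
      change A.j w = A.j (κ r)
      rw [hκ, ← hz]
      rfl
    change eqv k B (τ0 ((eqv k B).symm (eqv k B w))) = _
    rw [AlgEquiv.symm_apply_apply, h3]
    congr 1
    have h4 : g (algebraMap (RatFunc K) _ r) = κ r := hg r
    rw [← h4, ← e0, τ1.commutes]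
  obtain ⟨c, z, hc, hz, hv, hgood⟩ := act_main hEmb hObs A1 hex hdim y hy0 hfix (by
    intro a i P hP
    obtain ⟨h3, h4⟩ := hval a i P ((hloc i P).2 hP)
    obtain ⟨d, hd⟩ := Plc.val_of_mem h3
    refine ⟨d, ?_, hd⟩
    rintro rfl
    refine Plc.notMem_of_val_inv (pl := P) (x := (y a)⁻¹) (inv_ne_zero (hy0 a)) ?_ h4
    rw [inv_inv]
    exact hd) (by
    intro a
    refine (hfew a).subset fun π hπ => ⟨hπ.1, hπ.2.1, fun h => hπ.2.2 ?_⟩
    obtain ⟨j, θ, r, C, h3, h4, H⟩ := h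
    exact ⟨j, θ, r, C, h3, h4, fun φ h5 h6 P hP => H φ h5 h6 P ((hloc _ P).2 hP)⟩)
  refine ⟨c, z, hc, hz, fun a i P hP => hv a i P ((hloc i P).1 hP), fun halg => ?_⟩
  obtain ⟨W, hW⟩ := hgood halg
  exact geometric_of_good hEmb hDesc inferInstance s W
    (goodW_base A (κ : RatFunc K →+* AlgebraicClosure k) hα A1 g hj h2 hW)

end Pool.Agent.H886.FG
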